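import Pool.Agent.H59G.ZB

/-!
The zero estimate: a linearly independent family of functions which has small rank over the constants
of every one of the derivations is small.
-/

set_option autoImplicit false
set_option linter.unusedSectionVars false

open Pool.Agent.Y742.CN Pool.Agent.W602.GT

namespace Pool.Agent.H59G

section

variable {Ω K : Type} [Field Ω] [CharZero Ω] [Field K] [Algebra Ω K]

theorem app_perm {n : ℕ} {x : Fin n → K} (hx : IsTranscendenceBasis Ω x)
    {d : Fin n → Derivation Ω K K} (hd : ∀ i j, d i (x j) = if i = j then 1 else 0)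
    {v w : List (Fin n)} (h : v.Perm w) (f : K) : app (v.map d) f = app (w.map d) f := by
  induction h generalizing f with
  | nil => rfl
  | cons a _ ih => exact ih _
  | swap a b l =>
    simp only [List.map_cons, app_cons]
    rw [coord_comm hx hd]
  | trans _ _ ih1 ih2 => exact (ih1 f).trans (ih2 f)

/-- the relations are given by the derivatives for the multiindices -/
theorem exists_rel {n : ℕ} {x : Fin n → K} (hx : IsTranscendenceBasis Ω x) (m : ℕ) {q : ℕ}
    (f : Fin q → K) (hq : (m + 1) ^ n < q) :
    ∃ c : Fin q → K, c ≠ 0 ∧ Z Set.univ (AlgHom.id Ω K) (AlgHom.id Ω K) c m f := by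
  classical
  obtain ⟨d, hd⟩ := exists_coord hx
  let cn : (Fin n → Fin (m + 1)) → List (Fin n) := fun α =>
    if h : ∃ v : List (Fin n), ∀ i, v.count i = α i then h.choose else []
  have hcn : ∀ (v : List (Fin n)) (α : Fin n → Fin (m + 1)), (∀ i, v.count i = α i) →
      v.Perm (cn α) := by
    intro v α hv
    have hex : ∃ v : List (Fin n), ∀ i, v.count i = α i := ⟨v, hv⟩
    have h1 : cn α = hex.choose := dif_pos hex
    rw [h1, List.perm_iff_count]
    intro i
    rw [hv, hex.choose_spec]
  let A : (Fin q → K) →ₗ[K] ((Fin n → Fin (m + 1)) → K) :=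
    { toFun := fun c α => ∑ l, c l * app ((cn α).map d) (f l)
      map_add' := by
        intro c c'
        funext α
        simp only [Pi.add_apply, add_mul, Finset.sum_add_distrib]
      map_smul' := by
        intro a c
        funext α
        simp only [Pi.smul_apply, smul_eq_mul, RingHom.id_apply, Finset.mul_sum, mul_assoc] }
  have hker : LinearMap.ker A ≠ ⊥ := by
    refine LinearMap.ker_ne_bot_of_finrank_lt ?_
    rw [Module.finrank_fintype_fun_eq_card, Module.finrank_fintype_fun_eq_card, Fintype.card_fin,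
      Fintype.card_fun, Fintype.card_fin, Fintype.card_fin]
    exact hq
  obtain ⟨c, hc, hc0⟩ := (Submodule.ne_bot_iff _).1 hker
  refine ⟨c, hc0, ?_⟩
  have hsp : Spans (Set.range d) := by
    refine top_le_iff.1 fun E _ => ?_
    rw [coord_span hx hd E]
    exact Submodule.sum_mem _ fun j _ => Submodule.smul_mem _ _ (Submodule.subset_span ⟨j, rfl⟩)
  refine Z.all hsp ?_
  intro u hu hl
  obtain ⟨v, rfl⟩ : ∃ v : List (Fin n), v.map d = u := by
    have h1 : u ∈ Set.range (List.map d) := by
      rw [Set.range_list_map]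
      exact hu
    exact h1
  rw [List.length_map] at hl
  have h1 : ∀ i, v.count i < m + 1 := fun i => by
    have := List.count_le_length (a := i) (l := v)
    omega
  have h2 := hcn v (fun i => ⟨v.count i, h1 i⟩) (fun i => rfl)
  have h3 := congrFun (LinearMap.mem_ker.1 hc) (fun i => ⟨v.count i, h1 i⟩)
  simp only [AlgHom.coe_id, id_eq]
  rw [← show ∑ l, c l * app ((cn fun i => ⟨v.count i, h1 i⟩).map d) (f l) = 0 from h3]
  exact Finset.sum_congr rfl fun l _ => by rw [app_perm hx hd h2]

/-- **The zero estimate.** -/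
theorem zero_estimate {I : Type} {n : ℕ} {x : Fin n → K} (hx : IsTranscendenceBasis Ω x)
    (D : I → Derivation Ω K K) (hD : ∀ i, Lf (D i))
    (hinv : ∀ a : K, (∀ i, D i a = 0) → a ∈ Set.range (algebraMap Ω K)) :
    ∃ k : ℕ, ∀ (q J : ℕ) (f : Fin q → K), LinearIndependent Ω f → (∀ i, Rk (D i) J f) →
      q ≤ (k * (J - 1) + 1) ^ n := by
  obtain ⟨k, M, _, _, s, e, hE, hst⟩ := exists_max hx D hD
  refine ⟨k, fun q J f hf hR => ?_⟩
  by_contra hcon
  push Not at hcon
  obtain ⟨c, hc0, hc⟩ := exists_rel hx (k * (J - 1)) f hcon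
  have h1 := hE q J 0 c f hR (by rw [Nat.zero_add]; exact hc) [] (fun _ _ => Set.mem_univ _) le_rfl
  exact hc0 (stable_inj hinv hst hf h1)

end

end Pool.Agent.H59G
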