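import Pool.Agent.H59G.FB
import Pool.Agent.H59G.ZC
import Pool.Agent.H59D.InvB
import Pool.Agent.Y742.SP.All

/-!
Curves of genus at most one over a subfield: contraction of tensor fields with the vector field of the
curve; families of functions with bounded poles have small rank over the subfield.
-/

set_option autoImplicit false
set_option linter.unusedSectionVars false

open FF Module Pool.Agent.W602.GT Pool.Agent.W603.LV Pool.Agent.R887 Pool.Agent.Y742.SP
open Pool.Agent.Y742.GG (IsDoubleCoverOfLine IsEllipticTorsor)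

namespace Pool.Agent.H59G

section

variable {K : Type} [Field K] [Algebra ℂ K] {r : ℕ}

/-- the field is the function field of a curve over `L`, with the vector field `D` -/
structure CD (L : IntermediateField ℂ K) (D : Derivation ℂ K K) : Prop where
  cur : IsCurve L
  ne : D ≠ 0
  kill : ∀ a ∈ L, D a = 0
  good : ∀ P : Place ℂ K, TrivOn P L → GoodAt P L D

theorem exists_cd {L : IntermediateField ℂ K} (h : IsDoubleCoverOfLine L ∨ IsEllipticTorsor L)
    (hfg : ∃ S : Finset K, IntermediateField.adjoin ℂ (S : Set K) = ⊤) :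
    ∃ D : Derivation ℂ K K, CD L D := by
  have hc : IsCurve L ∧ ∃ D : Derivation ℂ K K, D ≠ 0 ∧ (∀ a ∈ L, D a = 0) ∧
      ∀ P : Place ℂ K, TrivOn P L → GoodAt P L D := by
    rcases h with h | h
    · exact Pool.Agent.Y37.SP.sDouble sGoodAll ℂ K L h
    · exact Pool.Agent.Y109.SP.sTorsor (Pool.Agent.Y21.SP.sTorA sGoodAll) ℂ K L h hfg
  obtain ⟨h1, D, h2, h3, h4⟩ := hc
  exact ⟨D, h1, h2, h3, h4⟩

variable {L : IntermediateField ℂ K} {D : Derivation ℂ K K} {n : ℕ} {y : Fin n → L}

theorem CD.basis (h : CD L D) (hn : Algebra.trdeg ℂ K = n) :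
    ∃ (n' : ℕ) (y : Fin n' → L), IsTranscendenceBasis ℂ y ∧ n = n' + 1 := by
  obtain ⟨t, S, ht, halg, -⟩ := h.cur
  obtain ⟨n', y, hy, hn'⟩ := Pool.Agent.Y689.SP.basis_of_curve n hn L t ht halg
  exact ⟨n', y, hy, hn'.symm⟩

/-- the constants are algebraic over `L` -/
theorem CD.alg (hy : IsTranscendenceBasis ℂ y) (h : CD L D) {a : K} (ha : D a = 0) :
    IsAlgebraic L a := by
  by_contra hcon
  obtain ⟨t, S, ht, halg, hS⟩ := h.cur
  have h1 : Algebra.IsAlgebraic (IntermediateField.adjoin L {a}) K :=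
    Pool.Agent.Y954.SP.swapF ht halg hcon
  have hT : IsTranscendenceBasis ℂ (Sum.elim (fun _ : Unit => a) (algebraMap L K ∘ y)) :=
    hy.sumElim_comp (tb_of_curve L a hcon h1.isAlgebraic)
  apply h.ne
  refine der_ext _ hT fun j => ?_
  rcases j with j | j
  · rw [Sum.elim_inl, ha, Derivation.zero_apply]
  · rw [Sum.elim_inr, Derivation.zero_apply]
    exact h.kill _ (y j).2

/-- coordinates -/
theorem CD.crd (hy : IsTranscendenceBasis ℂ y) (h : CD L D) :
    ∃ z : Unit ⊕ Fin n → K, IsTranscendenceBasis ℂ z ∧ ∀ j, D (z (Sum.inr j)) = 0 := by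
  obtain ⟨t, S, ht, halg, hS⟩ := h.cur
  exact ⟨_, hy.sumElim_comp (tb_of_curve L t ht halg), fun j => h.kill _ (y j).2⟩

/-- **Contraction**: a tensor field has a nonzero value which is, at all places which are trivial on
`L`, the value on regular vector fields. -/
theorem CD.exists_con (hy : IsTranscendenceBasis ℂ y) (h : CD L D) {σ : Tensor K r} (hσ : σ ≠ 0) :
    ∃ a : K, a ≠ 0 ∧ ∀ P : Place ℂ K, TrivOn P L →
      ∃ E : Fin r → Derivation ℂ K K, (∀ k, DerReg P (E k)) ∧ σ E = a := by
  classical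
  obtain ⟨b, hb⟩ := Pool.Agent.Y590.SP.exists_basis L y hy h.cur D h.ne h.kill
  -- the sets of slots
  let QQ : Finset (Fin r) → Prop := fun T => ∃ F : Fin r → Derivation ℂ K K,
    (∀ k, ∀ a ∈ L, F k a ∈ L) ∧ σ (T.piecewise (fun _ => D) F) ≠ 0
  have h0 : QQ ∅ := by
    by_contra hcon
    apply hσ
    refine Module.Basis.ext_multilinear (fun _ => b) fun v => ?_
    by_contra h1
    exact hcon ⟨fun k => b (v k), fun k => hb _, by rw [Finset.piecewise_empty]; exact h1⟩
  obtain ⟨T, hT, hmax⟩ := Finset.exists_max_image (Finset.univ.filter QQ) Finset.card ⟨∅, by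
    rw [Finset.mem_filter]
    exact ⟨Finset.mem_univ _, h0⟩⟩
  rw [Finset.mem_filter] at hT
  obtain ⟨-, F, hF, hne⟩ := hT
  refine ⟨_, hne, fun P hP => ?_⟩
  obtain ⟨hDr, hgd⟩ := h.good P hP
  choose g hg using fun k => hgd (F k) (hF k)
  refine ⟨T.piecewise (fun _ => D) (fun k => F k + g k • D), fun k => ?_, ?_⟩
  · by_cases hk : k ∈ T
    · rw [Finset.piecewise_eq_of_mem _ _ _ hk]
      exact hDr
    · rw [Finset.piecewise_eq_of_notMem _ _ _ hk]
      exact hg k
  · let g' : Fin r → K := fun k => if k ∈ T then 0 else g k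
    have e1 : T.piecewise (fun _ => D) (fun k => F k + g k • D) =
        T.piecewise (fun _ => D) F + fun k => g' k • D := by
      funext k
      by_cases hk : k ∈ T
      · simp [hk, g']
      · simp [hk, g']
    rw [e1, MultilinearMap.map_add_univ, Finset.sum_eq_single_of_mem Finset.univ (Finset.mem_univ _)]
    · rw [Finset.piecewise_univ]
    · intro s _ hs
      have e2 : s.piecewise (T.piecewise (fun _ => D) F) (fun k => g' k • D) =
          sᶜ.piecewise (fun k => g' k •
            ((s.piecewise (T.piecewise (fun _ => D) F) (fun _ => D)) k))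
            (s.piecewise (T.piecewise (fun _ => D) F) (fun _ => D)) := by
        funext k
        by_cases hk : k ∈ s
        · simp [hk]
        · simp [hk]
      rw [e2, MultilinearMap.map_piecewise_smul]
      by_cases hsub : sᶜ ⊆ T
      · obtain ⟨k, hk⟩ : sᶜ.Nonempty := by
          rw [Finset.nonempty_iff_ne_empty, Ne, Finset.compl_eq_empty_iff]
          exact hs
        rw [Finset.prod_eq_zero hk (by simp [g', hsub hk]), zero_smul]
      · have e3 : s.piecewise (T.piecewise (fun _ => D) F) (fun _ => D) =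
            (T ∪ sᶜ).piecewise (fun _ => D) F := by
          funext k
          by_cases hk : k ∈ s <;> by_cases hk' : k ∈ T <;> simp [hk, hk']
        have h3 : σ ((T ∪ sᶜ).piecewise (fun _ => D) F) = 0 := by
          by_contra h4
          have h5 := hmax (T ∪ sᶜ) (by
            rw [Finset.mem_filter]
            exact ⟨Finset.mem_univ _, F, hF, h4⟩)
          have h6 : T ⊂ T ∪ sᶜ := by
            refine Finset.ssubset_iff_subset_ne.2 ⟨Finset.subset_union_left, fun h7 => ?_⟩
            apply hsub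
            rw [h7]
            exact Finset.subset_union_right
          exact absurd (Finset.card_lt_card h6) (not_lt.2 h5)
        rw [e3, h3, smul_zero]

end

section

variable {K : Type} [Field K] [Algebra ℂ K] {L : IntermediateField ℂ K} {D : Derivation ℂ K K}

theorem down_triv (w : Place L K) : TrivOn (down L w) L := by
  intro a haL ha0
  have h1 : (⟨a, haL⟩ : L) ≠ 0 := fun h => ha0 (congrArg Subtype.val h)
  exact w.ord_const h1

/-- the rank over `L` of families of functions with bounded poles -/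
theorem CD.rk_bound (h : CD L D) (E : Finset K) : ∃ c d : ℕ, ∀ B J : ℕ, d * (c * B + 1) ≤ J →
    ∀ {ι : Type} (f : ι → K), (∀ l, ∀ P : Place ℂ K, TrivOn P L → ∀ μ : ℤ, μ ≤ 0 →
      (∀ e ∈ E, Ge P μ e) → Ge P (B * μ) (f l)) → Rk D J f := by
  classical
  have hcL : CharZero L := charZero_of_injective_algebraMap (algebraMap ℂ L).injective
  obtain ⟨t₀, S, ht₀, halg, hS⟩ := h.cur
  obtain ⟨t, ht, c, hc⟩ := exists_dom ht₀ halg hS E
  obtain ⟨d, -, hd⟩ := exists_span ht₀ halg hS ht
  refine ⟨c, d, fun B J hJ {ι} f hf => ?_⟩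
  obtain ⟨b, hb⟩ := hd (c * B) J hJ
  refine ⟨b, fun l => ?_⟩
  obtain ⟨g, hg⟩ := hb (f l) (fun w => by
    have h1 := hf l (down L w) (down_triv w) (c * mu t w)
      (mul_nonpos_of_nonneg_of_nonpos (Int.natCast_nonneg _) (mu_nonpos _ _))
      (fun e he => hc w e he)
    have h2 : ((c * B : ℕ) : ℤ) * mu t w = B * (c * mu t w) := by
      push_cast
      ring
    rw [h2]
    exact h1)
  exact ⟨fun a => algebraMap L K (g a), fun a => h.kill _ (g a).2, hg⟩

theorem Rk.mul {J : ℕ} {ι : Type} {f : ι → K} {u : K} (hu : u ≠ 0)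
    (h : Rk D J fun l => f l * u) : Rk D J f := by
  obtain ⟨b, hb⟩ := h
  refine ⟨fun a => b a / u, fun l => ?_⟩
  obtain ⟨g, hg, h1⟩ := hb l
  refine ⟨g, hg, ?_⟩
  have h2 : f l = (f l * u) / u := by field_simp
  have h3 : f l * u = ∑ a, g a * b a := h1
  rw [h2, h3, Finset.sum_div]
  exact Finset.sum_congr rfl fun a _ => by rw [mul_div_assoc]

end

end Pool.Agent.H59G
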