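import Pool.Agent.H59G.CA

/-!
Covering families of curves: the dimension of spaces of functions with bounded poles along the curves.
-/

set_option autoImplicit false
set_option linter.unusedSectionVars false

open FF Module Pool.Agent.W602.GT Pool.Agent.W603.LV Pool.Agent.R887 Pool.Agent.Y742.SP

namespace Pool.Agent.H59G

section up

variable {F O : Type} [Field F] [Field O] [Algebra ℂ F] [Algebra ℂ O]

/-- derivations extend to algebraic extensions -/
theorem exists_up₀ [Algebra F O] [IsScalarTower ℂ F O] [Algebra.IsAlgebraic F O]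
    (D : Derivation ℂ F F) :
    ∃ D' : Derivation ℂ O O, ∀ a, D' (algebraMap F O a) = algebraMap F O (D a) := by
  have hchar : CharZero F := charZero_of_injective_algebraMap (algebraMap ℂ F).injective
  have hsep : Algebra.IsSeparable F O := inferInstance
  have h3 : Algebra.FormallyEtale F O := Algebra.FormallyEtale.of_isSeparable _ _
  let e := KaehlerDifferential.tensorKaehlerEquivOfFormallyEtale ℂ F O
  let d : Derivation ℂ F O := (Algebra.linearMap F O).compDer D
  let l : Ω[F⁄ℂ] →ₗ[F] O := d.liftKaehlerDifferential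
  let Λ : Ω[O⁄ℂ] →ₗ[O] O := (LinearMap.liftBaseChange O l).comp e.symm.toLinearMap
  let D' : Derivation ℂ O O := Λ.compDer (KaehlerDifferential.D ℂ O)
  refine ⟨D', fun a => ?_⟩
  change LinearMap.liftBaseChange O l (e.symm (KaehlerDifferential.D ℂ O (algebraMap F O a))) = _
  rw [KaehlerDifferential.tensorKaehlerEquivOfFormallyEtale_symm_D_algebraMap]
  simp [l, d]

/-- conjugation of derivations -/
def cj (τ : O ≃ₐ[ℂ] O) (D : Derivation ℂ O O) : Derivation ℂ O O :=
  Derivation.mk'
    { toFun := fun x => τ.symm (D (τ x))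
      map_add' := fun x y => by rw [map_add, map_add, map_add]
      map_smul' := fun c x => by
        have h1 : D (c • τ x) = c • D (τ x) := D.toLinearMap.map_smul c (τ x)
        rw [map_smul, h1, map_smul]
        rfl }
    (fun x y => by
      simp only [LinearMap.coe_mk, AddHom.coe_mk, smul_eq_mul]
      rw [map_mul, D.leibniz, map_add, smul_eq_mul, smul_eq_mul, map_mul, map_mul,
        AlgEquiv.symm_apply_apply, AlgEquiv.symm_apply_apply])

theorem cj_apply (τ : O ≃ₐ[ℂ] O) (D : Derivation ℂ O O) (x : O) :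
    cj τ D x = τ.symm (D (τ x)) := rfl

end up

section

variable {K F O : Type} [Field K] [Field F] [Field O] [Algebra ℂ K] [Algebra ℂ F] [Algebra ℂ O]
  [Algebra K F] [Algebra K O] [IsScalarTower ℂ K F] [IsScalarTower ℂ K O] [Algebra.IsAlgebraic K O]

/-- derivations extend along embeddings -/
theorem exists_up (j : F →ₐ[K] O) (D : Derivation ℂ F F) :
    ∃ D' : Derivation ℂ O O, ∀ a, D' (j a) = j (D a) := by
  let _ : Algebra F O := j.toRingHom.toAlgebra
  have h1 : IsScalarTower K F O := IsScalarTower.of_algebraMap_eq fun c => (j.commutes c).symm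
  have h2 : IsScalarTower ℂ F O := IsScalarTower.of_algebraMap_eq fun c => by
    rw [IsScalarTower.algebraMap_apply ℂ K O, IsScalarTower.algebraMap_apply ℂ K F]
    exact (j.commutes _).symm
  have h3 : Algebra.IsAlgebraic F O := Algebra.IsAlgebraic.tower_top (K := K) F
  exact exists_up₀ D

theorem basis_up (j : F →ₐ[K] O) {ι : Type} {z : ι → F} (hz : IsTranscendenceBasis ℂ z) :
    IsTranscendenceBasis ℂ (fun i => j (z i)) := by
  let _ : Algebra F O := j.toRingHom.toAlgebra
  have h1 : IsScalarTower K F O := IsScalarTower.of_algebraMap_eq fun c => (j.commutes c).symm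
  have h2 : IsScalarTower ℂ F O := IsScalarTower.of_algebraMap_eq fun c => by
    rw [IsScalarTower.algebraMap_apply ℂ K O, IsScalarTower.algebraMap_apply ℂ K F]
    exact (j.commutes _).symm
  have h3 : Algebra.IsAlgebraic F O := Algebra.IsAlgebraic.tower_top (K := K) F
  exact hz.algebraMap_comp

end

section

variable {K : Type} [Field K] [Algebra ℂ K] {n : ℕ} {I : Type} {K' : I → Type}
  [∀ i, Field (K' i)] [∀ i, Algebra ℂ (K' i)] [∀ i, Algebra K (K' i)]
  [∀ i, IsScalarTower ℂ K (K' i)] [∀ i, FiniteDimensional K (K' i)]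

/-- the elements which are constant for all vector fields, on the algebraic closure -/
theorem inv_closure (hn : Algebra.trdeg ℂ K = n) (L : ∀ i, IntermediateField ℂ (K' i))
    (D : ∀ i, Derivation ℂ (K' i) (K' i)) (h : ∀ i, CD (L i) (D i))
    (hinv : ∀ a : K, (∀ i, IsAlgebraic (L i) (algebraMap K (K' i) a)) →
      a ∈ Set.range (algebraMap ℂ K))
    (DI : ∀ p : (Σ i, (K' i →ₐ[K] AlgebraicClosure K)),
      Derivation ℂ (AlgebraicClosure K) (AlgebraicClosure K))
    (hDI : ∀ p a, DI p (p.2 a) = p.2 (D p.1 a)) {a : AlgebraicClosure K}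
    (ha : ∀ p, DI p a = 0) : a ∈ Set.range (algebraMap ℂ (AlgebraicClosure K)) := by
  classical
  have hn' : ∀ i, Algebra.trdeg ℂ (K' i) = n := fun i => Pool.Agent.Y172.trdeg_up (K := K) hn
  -- the conjugates
  have hconj : ∀ (τ : AlgebraicClosure K ≃ₐ[K] AlgebraicClosure K) p, DI p (τ a) = 0 := by
    rintro τ ⟨i, j⟩
    obtain ⟨nn, y, hy, -⟩ := (h i).basis (hn' i)
    obtain ⟨z, hz, -⟩ := (h i).crd hy
    obtain ⟨j', hj'⟩ : ∃ j' : K' i →ₐ[K] AlgebraicClosure K, j' = τ.symm.toAlgHom.comp j :=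
      ⟨_, rfl⟩
    have hj'a : ∀ b, j' b = τ.symm (j b) := fun b => by
      rw [hj']
      rfl
    have h1 : cj (τ.restrictScalars ℂ) (DI ⟨i, j⟩) = DI ⟨i, j'⟩ := by
      refine der_ext _ (basis_up j' hz) fun k => ?_
      rw [cj_apply]
      have h2 : (τ.restrictScalars ℂ) (j' (z k)) = j (z k) := by
        rw [hj'a]
        exact τ.apply_symm_apply _
      rw [h2, hDI ⟨i, j⟩, hDI ⟨i, j'⟩, hj'a]
      rfl
    have h3 := ha ⟨i, j'⟩
    rw [← h1, cj_apply] at h3
    have h4 : τ.symm (DI ⟨i, j⟩ (τ a)) = 0 := h3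
    exact (map_eq_zero_iff _ τ.symm.injective).1 h4
  have halg : IsAlgebraic K a := Algebra.IsAlgebraic.isAlgebraic a
  -- the coefficients of the minimal polynomial
  have hcoef : ∀ k, ∀ p, DI p (algebraMap K (AlgebraicClosure K) ((minpoly K a).coeff k)) = 0 := by
    intro k p
    have h1 : (minpoly K a).map (algebraMap K (AlgebraicClosure K)) ∈
        Polynomial.lifts (consts (DI p)).toSubfield.toSubring.subtype := by
      have h2 : ((minpoly K a).map (algebraMap K (AlgebraicClosure K))).Splits :=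
        IsAlgClosed.splits _
      have h3 := h2.eq_prod_roots
      rw [Polynomial.leadingCoeff_map, (minpoly.monic halg.isIntegral).leadingCoeff, map_one,
        Polynomial.C_1, one_mul] at h3
      rw [h3]
      refine multiset_prod_mem _ fun q hq => ?_
      obtain ⟨r, hr, rfl⟩ := Multiset.mem_map.1 hq
      rw [Polynomial.mem_roots', Polynomial.IsRoot.def, Polynomial.eval_map] at hr
      obtain ⟨τ, hτ⟩ := minpoly.exists_algEquiv_of_root' halg (x := r) hr.2
      have h4 : r ∈ (consts (DI p)).toSubfield.toSubring := by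
        change DI p r = 0
        rw [← hτ]
        exact hconj τ p
      rw [sub_eq_add_neg, ← Polynomial.C_neg]
      refine add_mem ?_ ?_
      · exact ⟨Polynomial.X, by simp⟩
      · refine ⟨Polynomial.C ⟨-r, neg_mem h4⟩, ?_⟩
        rw [Polynomial.coe_mapRingHom, Polynomial.map_C]
        rfl
    rw [Polynomial.lifts_iff_coeff_lifts] at h1
    obtain ⟨c, hc⟩ := h1 k
    rw [Polynomial.coeff_map] at hc
    rw [← hc]
    exact c.2
  have hC : ∀ k, (minpoly K a).coeff k ∈ Set.range (algebraMap ℂ K) := by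
    intro k
    refine hinv _ fun i => ?_
    obtain ⟨nn, y, hy, -⟩ := (h i).basis (hn' i)
    refine (h i).alg hy ?_
    have j : K' i →ₐ[K] AlgebraicClosure K := IsAlgClosed.lift
    have h1 := hcoef k ⟨i, j⟩
    rw [← j.commutes, hDI ⟨i, j⟩] at h1
    exact (map_eq_zero_iff _ j.injective).1 h1
  have h1 : minpoly K a ∈ Polynomial.lifts (algebraMap ℂ K) := by
    rw [Polynomial.lifts_iff_coeff_lifts]
    exact hC
  obtain ⟨q, hq⟩ := h1
  have hq' : q.map (algebraMap ℂ K) = minpoly K a := hq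
  have h2 : IsAlgebraic ℂ a := by
    refine ⟨q, ?_, ?_⟩
    · rintro rfl
      rw [Polynomial.map_zero] at hq'
      exact minpoly.ne_zero halg.isIntegral hq'.symm
    · have h3 := minpoly.aeval K a
      rw [← hq', Polynomial.aeval_map_algebraMap] at h3
      exact h3
  obtain ⟨c, hc⟩ := const_of_algebraic h2
  exact ⟨c, hc.symm⟩

/-- **the dimension of spaces of functions with bounded poles along the curves** -/
theorem dim_bound [Fintype I] (hn : Algebra.trdeg ℂ K = n) (L : ∀ i, IntermediateField ℂ (K' i))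
    (D : ∀ i, Derivation ℂ (K' i) (K' i)) (h : ∀ i, CD (L i) (D i))
    (hinv : ∀ a : K, (∀ i, IsAlgebraic (L i) (algebraMap K (K' i) a)) →
      a ∈ Set.range (algebraMap ℂ K)) (E : ∀ i, Finset (K' i)) :
    ∃ C : ℕ, ∀ (B : ℕ) {κ : Type} [Fintype κ] (f : κ → K) (u : ∀ i, K' i), 1 ≤ B →
      LinearIndependent ℂ f → (∀ i, u i ≠ 0) →
      (∀ i l, ∀ P : Place ℂ (K' i), TrivOn P (L i) → ∀ μ : ℤ, μ ≤ 0 →
        (∀ e ∈ E i, Ge P μ e) → Ge P (B * μ) (algebraMap K (K' i) (f l) * u i)) →
      Fintype.card κ ≤ (C * B) ^ n := by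
  classical
  obtain ⟨x, hx⟩ : ∃ x : Fin n → K, IsTranscendenceBasis ℂ x := by
    obtain ⟨x, E, hx, -⟩ := Pool.Agent.Y172.exists_crd hn (k := ℂ) (K := K)
    exact ⟨x, hx⟩
  have hn' : ∀ i, Algebra.trdeg ℂ (K' i) = n := fun i => Pool.Agent.Y172.trdeg_up (K := K) hn
  choose DI hDI using fun p : (Σ i, (K' i →ₐ[K] AlgebraicClosure K)) => exists_up p.2 (D p.1)
  have hlf : ∀ p, Lf (DI p) := by
    rintro ⟨i, j⟩
    obtain ⟨nn, y, hy, -⟩ := (h i).basis (hn' i)
    obtain ⟨z, hz, hz0⟩ := (h i).crd hy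
    refine normal₀ (basis_up j hz) ?_ fun k => ?_
    · intro h0
      apply (h i).ne
      ext a
      have h1 := hDI ⟨i, j⟩ a
      rw [h0, Derivation.zero_apply] at h1
      exact (map_eq_zero_iff _ j.injective).1 h1.symm
    · rw [hDI ⟨i, j⟩, hz0, map_zero]
  obtain ⟨k, hk⟩ := zero_estimate (K := AlgebraicClosure K)
    (x := algebraMap K (AlgebraicClosure K) ∘ x) hx.algebraMap_comp DI hlf
    (fun a ha => inv_closure hn L D h hinv DI hDI ha)
  choose c d hcd using fun i => (h i).rk_bound (E i)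
  obtain ⟨cc, hcc⟩ : ∃ cc, cc = ∑ i, c i := ⟨_, rfl⟩
  obtain ⟨dd, hdd⟩ : ∃ dd, dd = ∑ i, d i := ⟨_, rfl⟩
  refine ⟨k * (dd * (cc + 1)) + 1, fun B κ _ f u hB hf hu hfu => ?_⟩
  obtain ⟨J, hJ⟩ : ∃ J, J = dd * (cc * B + 1) := ⟨_, rfl⟩
  have hR : ∀ i, Rk (D i) J (fun l => algebraMap K (K' i) (f l)) := by
    intro i
    refine Rk.mul (hu i) (hcd i B J ?_ (fun l => algebraMap K (K' i) (f l) * u i) (hfu i))
    have h1 : c i ≤ cc := by
      rw [hcc]
      exact Finset.single_le_sum (f := c) (fun _ _ => Nat.zero_le _) (Finset.mem_univ i)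
    have h2 : d i ≤ dd := by
      rw [hdd]
      exact Finset.single_le_sum (f := d) (fun _ _ => Nat.zero_le _) (Finset.mem_univ i)
    rw [hJ]
    gcongr
  let e := Fintype.equivFin κ
  have hf' : LinearIndependent ℂ (fun l => algebraMap K (AlgebraicClosure K) (f l)) :=
    hf.map' (IsScalarTower.toAlgHom ℂ K (AlgebraicClosure K)).toLinearMap
      (LinearMap.ker_eq_bot.2 (algebraMap K (AlgebraicClosure K)).injective)
  have h1 := hk (Fintype.card κ) J (fun q => algebraMap K (AlgebraicClosure K) (f (e.symm q)))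
    (hf'.comp e.symm e.symm.injective) (by
      rintro ⟨i, j⟩
      obtain ⟨b, hb⟩ := hR i
      refine ⟨fun a => j (b a), fun q => ?_⟩
      obtain ⟨g, hg, hfg⟩ := hb (e.symm q)
      refine ⟨fun a => j (g a), fun a => ?_, ?_⟩
      · rw [hDI ⟨i, j⟩, hg, map_zero]
      · have h5 : algebraMap K (K' i) (f (e.symm q)) = ∑ a, g a * b a := hfg
        change algebraMap K (AlgebraicClosure K) (f (e.symm q)) = ∑ a, j (g a) * j (b a)
        rw [← j.commutes, h5, map_sum]
        exact Finset.sum_congr rfl fun a _ => map_mul _ _ _)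
  refine h1.trans (Nat.pow_le_pow_left ?_ n)
  have h2 : J - 1 ≤ dd * ((cc + 1) * B) := by
    rw [hJ]
    refine (Nat.sub_le _ _).trans (Nat.mul_le_mul_left _ ?_)
    nlinarith
  calc k * (J - 1) + 1 ≤ k * (dd * ((cc + 1) * B)) + B := by
        gcongr
    _ = (k * (dd * (cc + 1)) + 1) * B := by ring

end

end Pool.Agent.H59G
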