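import Pool.Agent.H59G.CB

/-!
From the dimension of spaces of functions to the degree of a rational function on the curves which are
intersections of hyperplane sections.
-/

set_option autoImplicit false
set_option linter.unusedSectionVars false

open FF Module Pool.Agent.W602.GT Pool.Agent.W603.LV Pool.Agent.Y172 Pool.Agent.R887
  Pool.Agent.Y742.SP

namespace Pool.Agent.H59G

section indep

variable {K : Type} [Field K] [Algebra ℂ K] {ι : Type} [Fintype ι]

/-- the monomials in algebraically independent functions times a basis -/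
theorem mono_indep {v : ι → K} (hv : AlgebraicIndependent ℂ v) {κ τ : Type} {s : τ → ι → ℕ}
    (hs : Function.Injective s) {β : κ → K}
    (hβ : LinearIndependent (IntermediateField.adjoin ℂ (Set.range v)) β) :
    LinearIndependent ℂ (fun p : τ × κ => (∏ i, v i ^ s p.1 i) * β p.2) := by
  classical
  have hmem : ∀ t, ∏ i, v i ^ s t i ∈ IntermediateField.adjoin ℂ (Set.range v) := fun t =>
    prod_mem fun i _ => pow_mem (IntermediateField.subset_adjoin ℂ _ (Set.mem_range_self i)) _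
  have h1 : LinearIndependent ℂ
      (fun t => (⟨_, hmem t⟩ : IntermediateField.adjoin ℂ (Set.range v))) := by
    have h2 : LinearIndependent ℂ (fun t => ∏ i, v i ^ s t i) := by
      have h3 : LinearIndependent ℂ (fun m : ι →₀ ℕ => (MvPolynomial.monomial m (1 : ℂ))) := by
        have := (MvPolynomial.basisMonomials ι ℂ).linearIndependent
        rwa [MvPolynomial.coe_basisMonomials] at this
      have h4 := (h3.map' (MvPolynomial.aeval v).toLinearMap (LinearMap.ker_eq_bot.2 hv)).comp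
        (fun t => Finsupp.equivFunOnFinite.symm (s t))
        (Finsupp.equivFunOnFinite.symm.injective.comp hs)
      have e1 : (fun t => ∏ i, v i ^ s t i) = ((MvPolynomial.aeval v).toLinearMap ∘
          fun m : ι →₀ ℕ => (MvPolynomial.monomial m (1 : ℂ))) ∘
            fun t => Finsupp.equivFunOnFinite.symm (s t) := by
        funext t
        simp [MvPolynomial.aeval_monomial, Finsupp.prod_fintype]
      rw [e1]
      exact h4
    exact LinearIndependent.of_comp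
      (IntermediateField.val (IntermediateField.adjoin ℂ (Set.range v))).toLinearMap h2
  exact linearIndependent_smul h1 hβ

end indep

section count

variable {K M : Type} [Field K] [Algebra ℂ K] [Field M] [Algebra ℂ M] [Algebra K M]
  [IsScalarTower ℂ K M] {N : ℕ} {y : Fin (N + 1) → K}

/-- the degree of an element of the coordinate ring -/
theorem chart_deg {K : Type} [Field K] [Algebra ℂ K] {N : ℕ} {y : Fin (N + 1) → K}
    {j : Fin (N + 1)} {f : K} (hf : f ∈ chart y j) :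
    ∃ w : ℕ, ∀ {M : Type} [Field M] [Algebra ℂ M] [Algebra K M] [IsScalarTower ℂ K M]
      (P : Place ℂ M) (μ : ℤ), μ ≤ 0 → (∀ i, Ge P μ (algebraMap K M (y i / y j))) →
      Ge P (w * μ) (algebraMap K M f) := by
  induction hf using Algebra.adjoin_induction with
  | mem x hx =>
    obtain ⟨i, rfl⟩ := hx
    exact ⟨1, fun P μ _ h => by
      rw [Nat.cast_one, one_mul]
      exact h i⟩
  | algebraMap c =>
    exact ⟨0, fun P μ _ _ => by
      rw [Nat.cast_zero, zero_mul, ← IsScalarTower.algebraMap_apply]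
      exact Ge.const c⟩
  | add a b _ _ ha hb =>
    obtain ⟨w, hw⟩ := ha
    obtain ⟨w', hw'⟩ := hb
    refine ⟨w + w', fun P μ hμ h => ?_⟩
    rw [map_add]
    have h1 : (0 : ℤ) ≤ w := Int.natCast_nonneg _
    have h2 : (0 : ℤ) ≤ w' := Int.natCast_nonneg _
    refine ((hw P μ hμ h).mono ?_).add ((hw' P μ hμ h).mono ?_) <;> push_cast <;> nlinarith
  | mul a b _ _ ha hb =>
    obtain ⟨w, hw⟩ := ha
    obtain ⟨w', hw'⟩ := hb
    refine ⟨w + w', fun P μ hμ h => ?_⟩
    rw [map_mul]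
    have := (hw P μ hμ h).mul (hw' P μ hμ h)
    push_cast
    rwa [add_mul]

theorem form_ge {j : Fin (N + 1)} (a : Fin (N + 1) → ℂ) {P : Place ℂ M} {μ : ℤ}
    (h : ∀ i, Ge P μ (algebraMap K M (y i / y j))) :
    Ge P μ (algebraMap K M (∑ i, algebraMap ℂ K (a i) * (y i / y j))) := by
  rw [map_sum]
  refine Ge.sum _ _ fun i _ => ?_
  rw [map_mul, ← IsScalarTower.algebraMap_apply]
  have := (Ge.const (P := P) (a i)).mul (h i)
  rwa [zero_add] at this

end count

section deg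

variable {K : Type} [Field K] [Algebra ℂ K] {I : Type} {K' : I → Type}
  [∀ i, Field (K' i)] [∀ i, Algebra ℂ (K' i)] [∀ i, Algebra K (K' i)]
  [∀ i, IsScalarTower ℂ K (K' i)] {N : ℕ} {y : Fin (N + 1) → K}

/-- **The degree bound.** -/
theorem deg_bound (hy : NormalModel y) {j : Fin (N + 1)} (hj : y j ≠ 0) {n p : ℕ}
    (hn : Algebra.trdeg ℂ K = n) (hp : n = p + 1) {L : ∀ i, IntermediateField ℂ (K' i)}
    {E : ∀ i, Finset (K' i)} (hE : ∀ i l, algebraMap K (K' i) (y l / y j) ∈ E i) {C : ℕ}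
    (hC : ∀ (B : ℕ) {κ : Type} [Fintype κ] (f : κ → K) (u : ∀ i, K' i), 1 ≤ B →
      LinearIndependent ℂ f → (∀ i, u i ≠ 0) →
      (∀ i l, ∀ P : Place ℂ (K' i), TrivOn P (L i) → ∀ μ : ℤ, μ ≤ 0 →
        (∀ e ∈ E i, Ge P μ e) → Ge P (B * μ) (algebraMap K (K' i) (f l) * u i)) →
      Fintype.card κ ≤ (C * B) ^ n)
    {b : ℕ} (hb : 1 ≤ b) {g₀ g₁ : K} (hg₀ : g₀ ≠ 0) {w : ∀ i, K' i} (hw : ∀ i, w i ≠ 0)
    (h₀ : ∀ i, ∀ P : Place ℂ (K' i), TrivOn P (L i) → ∀ μ : ℤ, μ ≤ 0 → (∀ e ∈ E i, Ge P μ e) →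
      Ge P (b * μ) (algebraMap K (K' i) g₀ * w i))
    (h₁ : ∀ i, ∀ P : Place ℂ (K' i), TrivOn P (L i) → ∀ μ : ℤ, μ ≤ 0 → (∀ e ∈ E i, Ge P μ e) →
      Ge P (b * μ) (algebraMap K (K' i) g₁ * w i))
    {u : Fin p → K} (hu : ∀ a, IsPencil y (u a)) :
    dg ℂ (Sum.elim u (fun _ : Fin 1 => g₁ / g₀)) ≤ (C * (n + 1)) ^ n * b := by
  classical
  obtain ⟨v, hv⟩ : ∃ v : Fin p ⊕ Fin 1 → K, v = Sum.elim u (fun _ : Fin 1 => g₁ / g₀) := ⟨_, rfl⟩
  rw [← hv]
  by_cases h0 : dg ℂ v = 0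
  · rw [h0]
    exact Nat.zero_le _
  have hcard : Nat.card (Fin p ⊕ Fin 1) = n := by
    rw [Nat.card_eq_fintype_card, Fintype.card_sum, Fintype.card_fin, Fintype.card_fin, hp]
  have hbas := basis_of_dg (k := ℂ) (w := v) (by rw [hn, hcard]) h0
  have hfin := finite_of_dg h0
  have hfr := hy.frac hj
  let β := Module.finBasis (IntermediateField.adjoin ℂ (Set.range v)) K
  -- common denominators
  obtain ⟨e, he⟩ := IsLocalization.exist_integer_multiples_of_finite
    (nonZeroDivisors (chart y j)) (fun γ => β γ)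
  have he0 : ((e : chart y j) : K) ≠ 0 := fun h =>
    nonZeroDivisors.ne_zero e.2 (Subtype.ext h)
  have heβ : ∀ γ, ((e : chart y j) : K) * β γ ∈ chart y j := by
    intro γ
    obtain ⟨c, hc⟩ := he γ
    have h1 : (c : K) = ((e : chart y j) : K) * β γ := by
      have h2 : (c : K) = (e : chart y j) • β γ := hc
      rw [h2, Algebra.smul_def]
      rfl
    rw [← h1]
    exact c.2
  choose W hW using fun γ => chart_deg (heβ γ)
  obtain ⟨W0, hW0⟩ : ∃ W0, W0 = ∑ γ, W γ := ⟨_, rfl⟩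
  -- the linear forms
  choose A A' hA' hAA using hu
  obtain ⟨Af, hAf⟩ : ∃ Af : Fin p → K, Af = fun a => ∑ i, algebraMap ℂ K (A a i) * (y i / y j) :=
    ⟨_, rfl⟩
  obtain ⟨Bf, hBf⟩ : ∃ Bf : Fin p → K, Bf = fun a => ∑ i, algebraMap ℂ K (A' a i) * (y i / y j) :=
    ⟨_, rfl⟩
  have hAf' : ∀ a, Af a = (∑ i, algebraMap ℂ K (A a i) * y i) / y j := by
    intro a
    rw [hAf]
    simp only [Finset.sum_div, mul_div_assoc]
  have hBf' : ∀ a, Bf a = (∑ i, algebraMap ℂ K (A' a i) * y i) / y j := by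
    intro a
    rw [hBf]
    simp only [Finset.sum_div, mul_div_assoc]
  have hBf0 : ∀ a, Bf a ≠ 0 := fun a => by
    rw [hBf']
    exact div_ne_zero (hA' a) hj
  have huAB : ∀ a, u a = Af a / Bf a := by
    intro a
    rw [hAA, hAf', hBf', div_div_div_cancel_right₀ hj]
  -- the parameters
  obtain ⟨k, hk⟩ : ∃ k, k = W0 + 1 := ⟨_, rfl⟩
  obtain ⟨q, hq⟩ : ∃ q, q = k * b := ⟨_, rfl⟩
  obtain ⟨B, hB⟩ : ∃ B, B = k * b + p * q + W0 := ⟨_, rfl⟩
  let τ : Type := Fin (k + 1) × (Fin p → Fin (q + 1))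
  let κ : Type := τ × Fin (finrank (IntermediateField.adjoin ℂ (Set.range v)) K)
  obtain ⟨G, hG⟩ : ∃ G : K, G = g₀ ^ k * (∏ a, Bf a ^ q) * ((e : chart y j) : K) := ⟨_, rfl⟩
  have hG0 : G ≠ 0 := by
    rw [hG]
    refine mul_ne_zero (mul_ne_zero (pow_ne_zero _ hg₀) ?_) he0
    exact Finset.prod_ne_zero_iff.2 fun a _ => pow_ne_zero _ (hBf0 a)
  let f₀ : κ → K := fun l => g₁ ^ (l.1.1 : ℕ) * g₀ ^ (k - (l.1.1 : ℕ)) *
    (∏ a, (Af a ^ (l.1.2 a : ℕ) * Bf a ^ (q - (l.1.2 a : ℕ)))) * (((e : chart y j) : K) * β l.2)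
  let s : τ → Fin p ⊕ Fin 1 → ℕ := fun t => Sum.elim (fun a => (t.2 a : ℕ)) (fun _ => (t.1 : ℕ))
  have hs : Function.Injective s := by
    rintro ⟨i, α⟩ ⟨i', α'⟩ h
    have h1 := congrFun h (Sum.inr 0)
    have h2 : ∀ a, (α a : ℕ) = α' a := fun a => congrFun h (Sum.inl a)
    have h3 : i = i' := Fin.ext h1
    have h4 : α = α' := funext fun a => Fin.ext (h2 a)
    rw [h3, h4]
  have hf₀ : ∀ l : κ, f₀ l = G * ((∏ i, v i ^ s l.1 i) * β l.2) := by
    rintro ⟨⟨i, α⟩, γ⟩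
    have h1 : ∏ x, v x ^ s (i, α) x = (∏ a, u a ^ (α a : ℕ)) * (g₁ / g₀) ^ (i : ℕ) := by
      rw [Fintype.prod_sum_type, hv]
      simp [s]
    have h2 : g₁ ^ (i : ℕ) * g₀ ^ (k - (i : ℕ)) = g₀ ^ k * (g₁ / g₀) ^ (i : ℕ) := by
      have h3 : g₀ ^ k = g₀ ^ (k - (i : ℕ)) * g₀ ^ (i : ℕ) := by
        rw [← pow_add, Nat.sub_add_cancel (Nat.lt_succ_iff.1 i.2)]
      rw [h3, div_pow]
      field_simp
    have h3 : ∏ a, (Af a ^ (α a : ℕ) * Bf a ^ (q - (α a : ℕ))) =
        (∏ a, Bf a ^ q) * ∏ a, u a ^ (α a : ℕ) := by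
      rw [← Finset.prod_mul_distrib]
      refine Finset.prod_congr rfl fun a _ => ?_
      have h4 : Bf a ^ q = Bf a ^ (q - (α a : ℕ)) * Bf a ^ (α a : ℕ) := by
        rw [← pow_add, Nat.sub_add_cancel (Nat.lt_succ_iff.1 (α a).2)]
      have := hBf0 a
      rw [h4, huAB, div_pow]
      field_simp
    change g₁ ^ (i : ℕ) * g₀ ^ (k - (i : ℕ)) *
      (∏ a, (Af a ^ (α a : ℕ) * Bf a ^ (q - (α a : ℕ)))) * (((e : chart y j) : K) * β γ) =
      G * ((∏ x, v x ^ s (i, α) x) * β γ)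
    rw [h1, h2, h3, hG]
    ring
  have hind : LinearIndependent ℂ f₀ := by
    have h1 := mono_indep hbas.1 hs β.linearIndependent
    have h2 := h1.map' (LinearMap.mulLeft ℂ G) (LinearMap.ker_eq_bot.2 fun a a' h =>
      mul_left_cancel₀ hG0 h)
    have e1 : f₀ = (LinearMap.mulLeft ℂ G) ∘ fun p : κ => (∏ i, v i ^ s p.1 i) * β p.2 := by
      funext l
      rw [hf₀]
      rfl
    rw [e1]
    exact h2
  have hk1 : 1 ≤ k := by omega
  have hkb : 1 ≤ k * b := Nat.mul_pos hk1 hb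
  have hB1 : 1 ≤ B := by omega
  have key := hC B f₀ (fun i => w i ^ k) hB1 hind
    (fun i => pow_ne_zero _ (hw i)) (by
      rintro i ⟨⟨i', α⟩, γ⟩ P hP μ hμ hEμ
      have e1 : algebraMap K (K' i) (f₀ ((i', α), γ)) * w i ^ k =
          (algebraMap K (K' i) g₁ * w i) ^ (i' : ℕ) * (algebraMap K (K' i) g₀ * w i) ^ (k - (i' : ℕ)) *
          (∏ a, (algebraMap K (K' i) (Af a) ^ (α a : ℕ) * algebraMap K (K' i) (Bf a) ^ (q - (α a : ℕ)))) *
          algebraMap K (K' i) (((e : chart y j) : K) * β γ) := by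
        have h2 : w i ^ k = w i ^ (i' : ℕ) * w i ^ (k - (i' : ℕ)) := by
          rw [← pow_add, Nat.add_sub_cancel' (Nat.lt_succ_iff.1 i'.2)]
        change algebraMap K (K' i) (g₁ ^ (i' : ℕ) * g₀ ^ (k - (i' : ℕ)) *
          (∏ a, (Af a ^ (α a : ℕ) * Bf a ^ (q - (α a : ℕ)))) *
            (((e : chart y j) : K) * β γ)) * w i ^ k = _
        rw [h2, map_mul, map_mul, map_mul, map_prod, map_pow, map_pow]
        simp only [map_mul, map_pow]
        ring
      rw [e1]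
      have hyμ : ∀ l, Ge P μ (algebraMap K (K' i) (y l / y j)) := fun l => hEμ _ (hE i l)
      have h2 := (h₁ i P hP μ hμ hEμ).pow (i' : ℕ)
      have h3 := (h₀ i P hP μ hμ hEμ).pow (k - (i' : ℕ))
      have h4 : ∀ a, Ge P (q * μ) (algebraMap K (K' i) (Af a) ^ (α a : ℕ) *
          algebraMap K (K' i) (Bf a) ^ (q - (α a : ℕ))) := by
        intro a
        have h5 : Ge P μ (algebraMap K (K' i) (Af a)) := by
          rw [hAf]
          exact form_ge _ hyμ
        have h6 : Ge P μ (algebraMap K (K' i) (Bf a)) := by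
          rw [hBf]
          exact form_ge _ hyμ
        have h7 := (h5.pow (α a : ℕ)).mul (h6.pow (q - (α a : ℕ)))
        have h8 : ((α a : ℕ) : ℤ) * μ + ((q - (α a : ℕ) : ℕ) : ℤ) * μ = q * μ := by
          rw [← add_mul, ← Nat.cast_add, Nat.add_sub_cancel' (Nat.lt_succ_iff.1 (α a).2)]
        rwa [h8] at h7
      have h5 := Ge.prod (P := P) Finset.univ (fun a => algebraMap K (K' i) (Af a) ^ (α a : ℕ) *
          algebraMap K (K' i) (Bf a) ^ (q - (α a : ℕ))) (fun _ => q * μ) fun a _ => h4 a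
      have h6 := ((h2.mul h3).mul h5).mul (hW γ P μ hμ hyμ)
      refine h6.mono ?_
      have h7 : ((i' : ℕ) : ℤ) * (b * μ) + ((k - (i' : ℕ) : ℕ) : ℤ) * (b * μ) = k * (b * μ) := by
        rw [← add_mul, ← Nat.cast_add, Nat.add_sub_cancel' (Nat.lt_succ_iff.1 i'.2)]
      rw [h7, Finset.sum_const, Finset.card_univ, Fintype.card_fin, nsmul_eq_mul, hB]
      have h8 : W γ ≤ W0 := by
        rw [hW0]
        exact Finset.single_le_sum (f := W) (fun _ _ => Nat.zero_le _) (Finset.mem_univ γ)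
      have h9 : (W γ : ℤ) ≤ W0 := by exact_mod_cast h8
      push_cast
      nlinarith)
  have hcκ : Fintype.card κ = (k + 1) * (q + 1) ^ p * dg ℂ v := by
    change Fintype.card ((Fin (k + 1) × (Fin p → Fin (q + 1))) ×
      Fin (finrank (IntermediateField.adjoin ℂ (Set.range v)) K)) = _
    rw [Fintype.card_prod, Fintype.card_prod, Fintype.card_fun, Fintype.card_fin,
      Fintype.card_fin, Fintype.card_fin, Fintype.card_fin]
    rfl
  rw [hcκ] at key
  have hBle : B ≤ (n + 1) * (k * b) := by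
    rw [hB, hq, hp]
    have h1 : W0 ≤ k * b := by
      calc W0 ≤ k := by omega
        _ = k * 1 := (mul_one k).symm
        _ ≤ k * b := Nat.mul_le_mul_left _ hb
    nlinarith
  have h2 : k * (k * b) ^ p * dg ℂ v ≤ k * (k * b) ^ p * ((C * (n + 1)) ^ n * b) := by
    calc k * (k * b) ^ p * dg ℂ v ≤ (k + 1) * (q + 1) ^ p * dg ℂ v := by
          rw [hq]
          gcongr <;> omega
      _ ≤ (C * B) ^ n := key
      _ ≤ (C * ((n + 1) * (k * b))) ^ n := by gcongr
      _ = k * (k * b) ^ p * ((C * (n + 1)) ^ n * b) := by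
          rw [← mul_assoc, mul_pow]
          conv_lhs => rw [hp, pow_succ (k * b) p, ← hp]
          ring
  exact Nat.le_of_mul_le_mul_left h2 (Nat.mul_pos hk1 (Nat.pow_pos hkb))

end deg

end Pool.Agent.H59G
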