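import Pool.Agent.H59G.DA

/-!
Tensor fields on smooth projective varieties with covering families of curves of genus at most one: the
numerical dimension of rank one sheaves.
-/

set_option autoImplicit false
set_option linter.overlappingInstances false
set_option linter.unusedSectionVars false

open FF Module Pool.Agent.W602.GT Pool.Agent.W603.LV Pool.Agent.Y172 Pool.Agent.R887
  Pool.Agent.H59D Pool.Agent.Y742.SP
open Pool.Agent.Y742.GG (IsDoubleCoverOfLine IsEllipticTorsor)

namespace Pool.Agent.H59G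

section

variable {K : Type} [Field K] [Algebra ℂ K] {I : Type} {K' : I → Type}
  [∀ i, Field (K' i)] [∀ i, Algebra ℂ (K' i)] [∀ i, Algebra K (K' i)]
  [∀ i, IsScalarTower ℂ K (K' i)] [∀ i, FiniteDimensional K (K' i)] {N n r : ℕ}
  {y : Fin (N + 1) → K}

/-- **The numerical dimension of rank one sheaves of tensor fields**, on a variety which is connected by
covering families of curves of genus at most one. -/
theorem numdim_curves [Fintype I] (hy : NormalModel y) (hn : Algebra.trdeg ℂ K = n) (hn0 : 0 < n)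
    (hsm : SmoothModel y n) (L : ∀ i, IntermediateField ℂ (K' i))
    (hL : ∀ i, IsDoubleCoverOfLine (L i) ∨ IsEllipticTorsor (L i))
    (hinv : ∀ a : K, (∀ i, IsAlgebraic (L i) (algebraMap K (K' i) a)) →
      a ∈ Set.range (algebraMap ℂ K)) {σ : Tensor K r} (hσ : σ ≠ 0) : TensorNumDimLt y n σ 1 := by
  classical
  have hess := hy.ess
  have hess' : ∀ i, Algebra.EssFiniteType ℂ (K' i) := fun i => ess_up hess
  have hfg : ∀ i, ∃ S : Finset (K' i), IntermediateField.adjoin ℂ (S : Set (K' i)) = ⊤ := by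
    intro i
    obtain ⟨S, hS⟩ := IntermediateField.fg_top ℂ (K' i)
    exact ⟨S, hS⟩
  choose D hD using fun i => exists_cd (hL i) (hfg i)
  have hn' : ∀ i, Algebra.trdeg ℂ (K' i) = n := fun i => trdeg_up (K := K) hn
  choose nn yy hyy hnn using fun i => (hD i).basis (hn' i)
  obtain ⟨x, E, hx, hE⟩ := exists_crd hn (k := ℂ) (K := K)
  have hσ' : ∀ i, TP (K' i) x E σ ≠ 0 := fun i => TP_ne hn hx hE hσ
  choose h hh0 hh using fun i => (hD i).exists_con (hyy i) (hσ' i)
  obtain ⟨j₀, hj₀⟩ := hy.ne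
  intro A hA ε hε
  choose s hsc hs0 hsA using fun j => exists_bound (y := y) hA j
  obtain ⟨EE, hEE⟩ : ∃ EE : ∀ i, Finset (K' i), EE = fun i =>
      (Finset.univ.image fun l => algebraMap K (K' i) (y l / y j₀)) ∪
        (Finset.univ.image fun l => (algebraMap K (K' i) (s l))⁻¹) := ⟨_, rfl⟩
  obtain ⟨C, hC⟩ := dim_bound hn L D hD hinv EE
  obtain ⟨C', hC'⟩ : ∃ C' : ℕ, C' = (C * (n + 1)) ^ n := ⟨_, rfl⟩
  refine ⟨ε / (2 * (C' + 1)), by positivity, ⌈2 * (C' : ℝ) / ε⌉₊ + 1,
    fun m b hm hb u hu g hg hg0 => ?_⟩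
  have hm1 : 1 ≤ m := by omega
  -- the sections
  have key : ∀ (a : Fin 2) (i : I) (P : Place ℂ (K' i)), TrivOn P (L i) → ∀ μ : ℤ, μ ≤ 0 →
      (∀ e ∈ EE i, Ge P μ e) →
      Ge P (((b + 1 : ℕ) : ℤ) * μ) (algebraMap K (K' i) (g a) * h i ^ m) := by
    intro a i P hP μ hμ hEμ
    have hdiv : Divisorial n P := by
      rw [hnn i]
      exact Pool.Agent.Y86.SP.sDiv ℂ (K' i) (L i) (nn i) (yy i) (hyy i) P hP
    obtain ⟨F, hF, hFh⟩ := hh i P hP
    obtain ⟨j, hj⟩ := exists_centred hy (bel K P)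
    have h1 := smooth_up hy hn hsm hx hE (g := g a * s j ^ b) hm1 hdiv
      (fun Q hQ ht F hF => twisted_local (hs0 j) (hsA j) (hg a) hj hQ ht hF) (D := F) hF
    rw [TP_apply] at hFh
    rw [hFh] at h1
    have hsj : algebraMap K (K' i) (s j) ≠ 0 := by
      rw [Ne, map_eq_zero]
      exact hs0 j
    have e1 : algebraMap K (K' i) (g a * s j ^ b) * h i ^ m =
        algebraMap K (K' i) (s j) ^ b * (algebraMap K (K' i) (g a) * h i ^ m) := by
      rw [map_mul, map_pow]
      ring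
    rw [e1] at h1
    have h2 := Ge.of_mul (pow_ne_zero _ hsj) (show Ge P 0 _ from h1)
    refine h2.mono ?_
    rw [P.ord_pow]
    have h3 : Ge P μ ((algebraMap K (K' i) (s j))⁻¹) := by
      refine hEμ _ ?_
      rw [hEE]
      exact Finset.mem_union_right _ (Finset.mem_image_of_mem _ (Finset.mem_univ j))
    have h4 := h3.resolve_left (inv_ne_zero hsj)
    rw [P.ord_inv] at h4
    have h5 : (0 : ℤ) ≤ b := Int.natCast_nonneg _
    push_cast
    nlinarith
  have hdeg := deg_bound (K' := K') hy hj₀ hn (p := n - 1) (by omega) (L := L) (E := EE)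
    (fun i l => by
      rw [hEE]
      exact Finset.mem_union_left _ (Finset.mem_image_of_mem _ (Finset.mem_univ l)))
    hC (b := b + 1) (by omega) hg0 (g₁ := g 1) (w := fun i => h i ^ m)
    (fun i => pow_ne_zero _ (hh0 i)) (key 0) (key 1) hu
  rw [← hC'] at hdeg
  rw [degreeOver_eq]
  have e2 : (fun i : Fin 1 => g i.succ / g 0) = fun _ : Fin 1 => g 1 / g 0 := by
    funext i
    rw [Fin.eq_zero i]
    rfl
  rw [e2, pow_one]
  have h6 : (dg ℂ (Sum.elim u fun _ : Fin 1 => g 1 / g 0) : ℝ) ≤ C' * (b + 1) := by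
    exact_mod_cast hdeg
  refine h6.trans ?_
  have hC0 : (0 : ℝ) < C' + 1 := by positivity
  have h7 : (C' : ℝ) * b ≤ ε * m / 2 := by
    have h8 : (C' : ℝ) * b ≤ (C' + 1) * b := by
      have : (0 : ℝ) ≤ b := Nat.cast_nonneg _
      nlinarith
    have h9 := mul_le_mul_of_nonneg_left hb hC0.le
    have h10 : ((C' : ℝ) + 1) * (ε / (2 * (C' + 1)) * m) = ε * m / 2 := by
      field_simp
    linarith
  have h8 : (C' : ℝ) ≤ ε * m / 2 := by
    have h9 : 2 * (C' : ℝ) / ε ≤ m := by
      refine (Nat.le_ceil _).trans ?_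
      exact_mod_cast (by omega : ⌈2 * (C' : ℝ) / ε⌉₊ ≤ m)
    rw [div_le_iff₀ hε] at h9
    linarith
  linarith

end

end Pool.Agent.H59G
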