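import Pool.Agent.R887.Lin
import Pool.Agent.Y954.SP.Pole

/-!
Functions with bounded poles on a curve over a field `L`.
-/

set_option autoImplicit false
set_option linter.unusedSectionVars false

open FF Module Polynomial Pool.Agent.W603.LV Pool.Agent.R887

namespace Pool.Agent.H59G

section

variable {L K : Type} [Field L] [Field K] [Algebra L K]

theorem ord_poly (w : Place L K) {x : K} (hP : w.ord x < 0) {p : L[X]} (hp : p ≠ 0) :
    aeval x p ≠ 0 ∧ w.ord (aeval x p) = p.natDegree * w.ord x := by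
  have hx0 : x ≠ 0 := by
    rintro rfl
    rw [w.ord_zero] at hP; omega
  have hx : Transcendental L x := w.transcendental_of_ord_ne (by omega)
  have hne : aeval x p ≠ 0 := fun h => hp ((transcendental_iff_injective.1 hx) (by rw [h, map_zero]))
  refine ⟨hne, ?_⟩
  have h1 : Ge w ((p.natDegree : ℤ) * w.ord x + 1)
      (aeval x p - algebraMap L K p.leadingCoeff * x ^ p.natDegree) := by
    have e : aeval x p - algebraMap L K p.leadingCoeff * x ^ p.natDegree =
        ∑ i ∈ Finset.range p.natDegree, algebraMap L K (p.coeff i) * x ^ i := by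
      rw [aeval_eq_sum_range, Finset.sum_range_succ]
      simp only [Algebra.smul_def]
      rw [coeff_natDegree]; ring
    rw [e]
    apply Ge.sum
    intro i hi
    rw [Finset.mem_range] at hi
    have h2 : Ge w ((i : ℤ) * w.ord x) (x ^ i) := Or.inr (by rw [w.ord_pow])
    refine ((Ge.const (P := w) (p.coeff i)).mul h2).mono ?_
    have h3 : ((p.natDegree : ℤ) - i) * w.ord x ≤ ((p.natDegree : ℤ) - i) * (-1) := by
      apply mul_le_mul_of_nonneg_left <;> omega
    have h4 : (1 : ℤ) ≤ (p.natDegree : ℤ) - i := by omega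
    nlinarith
  have hlc : algebraMap L K p.leadingCoeff ≠ 0 := by simpa using hp
  have h2 : w.ord (algebraMap L K p.leadingCoeff * x ^ p.natDegree) = p.natDegree * w.ord x := by
    rw [w.ord_mul hlc (pow_ne_zero _ hx0), w.ord_const (by simpa using hp), w.ord_pow, zero_add]
  by_cases h3 : aeval x p - algebraMap L K p.leadingCoeff * x ^ p.natDegree = 0
  · rw [sub_eq_zero] at h3
    rw [h3, h2]
  · have h4 := h1.resolve_left h3
    have h5 := w.ord_add_eq (f := algebraMap L K p.leadingCoeff * x ^ p.natDegree)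
      (g := aeval x p - algebraMap L K p.leadingCoeff * x ^ p.natDegree)
      (mul_ne_zero hlc (pow_ne_zero _ hx0)) h3 (by omega)
    rw [add_sub_cancel] at h5
    rw [h5.2, h2]

/-- the pole order of `t`, with a minus sign -/
def mu (t : K) (w : Place L K) : ℤ := min 0 (w.ord t)

theorem mu_nonpos (t : K) (w : Place L K) : mu t w ≤ 0 := min_le_left _ _

theorem isMin_mu {t : K} (ht : t ≠ 0) :
    IsMin (insert 1 (Set.range (fun _ : Unit => t))) (mu (L := L) t) := by
  constructor
  · intro w
    rcases le_total 0 (w.ord t) with h | h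
    · exact ⟨1, Set.mem_insert _ _, one_ne_zero, by rw [w.ord_one, mu, min_eq_left h]⟩
    · exact ⟨t, Set.mem_insert_of_mem _ ⟨(), rfl⟩, ht, by rw [mu, min_eq_right h]⟩
  · intro w s hs hs0
    rcases hs with rfl | ⟨_, rfl⟩
    · rw [w.ord_one]
      exact mu_nonpos _ _
    · exact min_le_right _ _

variable [CharZero L]

open IntermediateField.algebraAdjoinAdjoin in
/-- Finitely many functions have their poles among the poles of one function `t`. -/
theorem exists_dom {t₀ : K} {S : Finset K} (ht : Transcendental L t₀)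
    (ha : ∀ b : K, IsAlgebraic (IntermediateField.adjoin L {t₀}) b)
    (hS : IntermediateField.adjoin L (S : Set K) = ⊤) (E : Finset K) :
    ∃ t : K, Transcendental L t ∧ ∃ c : ℕ, ∀ (w : Place L K), ∀ e ∈ E, Ge w (c * mu t w) e := by
  classical
  have ht0 : t₀ ≠ 0 := by
    rintro rfl
    exact ht (isAlgebraic_zero)
  have halg : Algebra.IsAlgebraic (Algebra.adjoin L {t₀}) K := by
    have h1 : Algebra.IsAlgebraic (IntermediateField.adjoin L {t₀}) K := ⟨ha⟩
    exact (IsFractionRing.comap_isAlgebraic_iff (A := Algebra.adjoin L {t₀})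
      (K := IntermediateField.adjoin L {t₀}) (C := K)).2 h1
  obtain ⟨y, hy0, hy⟩ := Algebra.IsAlgebraic.exists_integral_multiples (R := Algebra.adjoin L {t₀}) E
  have hym : (y : K) ∈ (aeval t₀ : L[X] →ₐ[L] K).range := by
    rw [← Algebra.adjoin_singleton_eq_range_aeval]
    exact y.2
  obtain ⟨p, hp⟩ := hym
  have hp' : aeval t₀ p = (y : K) := hp
  have hyK : (y : K) ≠ 0 := fun h => hy0 (Subtype.ext h)
  have hp0 : p ≠ 0 := by
    rintro rfl
    rw [map_zero] at hp'
    exact hyK hp'.symm
  -- the new function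
  obtain ⟨t, htd⟩ : ∃ t, t = t₀ + (y : K)⁻¹ := ⟨_, rfl⟩
  have hpole : ∀ w : Place L K, w.ord t₀ < 0 → w.ord t = w.ord t₀ ∧ w.ord (y : K) ≤ 0 := by
    intro w hw
    have h1 := (ord_poly w hw hp0).2
    rw [hp'] at h1
    have h2 : w.ord (y : K) ≤ 0 := by
      rw [h1]
      exact mul_nonpos_of_nonneg_of_nonpos (Int.natCast_nonneg _) hw.le
    refine ⟨?_, h2⟩
    have h3 := w.ord_add_eq (f := t₀) (g := (y : K)⁻¹) ht0 (inv_ne_zero hyK) (by
      rw [w.ord_inv]
      omega)
    rw [htd]
    exact h3.2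
  have htt : Transcendental L t := by
    obtain ⟨w, hw⟩ := Pool.Agent.Y954.SP.exists_pole ht ha hS ht
    exact w.transcendental_of_ord_ne (by rw [(hpole w hw).1]; omega)
  -- the bounds
  have hmu : ∀ w : Place L K, mu t w ≤ mu t₀ w := by
    intro w
    by_cases hw : w.ord t₀ < 0
    · rw [mu, mu, (hpole w hw).1]
    · have h1 : mu t₀ w = 0 := min_eq_left (by omega)
      rw [h1]
      exact mu_nonpos _ _
  have hinv : ∀ w : Place L K, Ge w (mu t w) (y : K)⁻¹ := by
    intro w
    right
    rw [w.ord_inv]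
    by_cases hy1 : w.ord (y : K) ≤ 0
    · have := mu_nonpos t w
      omega
    · push Not at hy1
      have h1 : 0 ≤ w.ord t₀ := by
        by_contra hcon
        push Not at hcon
        have := (hpole w hcon).2
        omega
      have h2 := w.ord_add_eq (f := (y : K)⁻¹) (g := t₀) (inv_ne_zero hyK) ht0 (by
        rw [w.ord_inv]
        omega)
      have h3 : w.ord t = -w.ord (y : K) := by
        rw [htd, add_comm, h2.2, w.ord_inv]
      rw [mu, h3]
      exact min_le_right _ _
  have hint : ∀ e : K, IsIntegral (Algebra.adjoin L {t₀}) (y • e) →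
      ∃ D : ℕ, ∀ w : Place L K, Ge w (D * mu t₀ w) (y • e) := by
    intro e he
    have h1 := isMin_mu (L := L) ht0
    have h2 : (Algebra.adjoin L {t₀}) = Algebra.adjoin L (Set.range (fun _ : Unit => t₀)) := by
      rw [Set.range_const]
    refine ge_int h1 ?_
    rw [← h2]
    exact he
  have hall : ∀ e : K, ∃ D : ℕ, e ∈ E → ∀ w : Place L K, Ge w (D * mu t₀ w) (y • e) := by
    intro e
    by_cases he : e ∈ E
    · obtain ⟨D, hD⟩ := hint e (hy e he)
      exact ⟨D, fun _ => hD⟩
    · exact ⟨0, fun h => absurd h he⟩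
  choose D hD using hall
  refine ⟨t, htt, ∑ e ∈ E, D e + 1, fun w e he => ?_⟩
  have h1 := (hD e he w).mul (hinv w)
  have h2 : (y • e) * (y : K)⁻¹ = e := by
    rw [Algebra.smul_def]
    change (y : K) * e * (y : K)⁻¹ = e
    field_simp
  rw [h2] at h1
  refine h1.mono ?_
  have h3 : D e ≤ ∑ e ∈ E, D e := Finset.single_le_sum (f := D) (fun _ _ => Nat.zero_le _) he
  have h4 : ((D e : ℕ) : ℤ) ≤ ((∑ e ∈ E, D e : ℕ) : ℤ) := by exact_mod_cast h3
  have h5 := hmu w
  have h6 := mu_nonpos t w
  have h7 := mu_nonpos t₀ w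
  push_cast at h4 ⊢
  nlinarith

end

end Pool.Agent.H59G
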