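import Pool.Agent.H59G.FA

/-!
The dimension of a space of functions with bounded poles on a curve over a field `L`.
-/

set_option autoImplicit false
set_option linter.unusedSectionVars false

open FF Module Polynomial Pool.Agent.W603.LV Pool.Agent.R887

namespace Pool.Agent.H59G

section

variable {L K : Type} [Field L] [CharZero L] [Field K] [Algebra L K]

/-- the functions with poles of order at most `B` times those of `t` -/
def WB (L : Type) [Field L] [Algebra L K] (t : K) (B : ℤ) : Submodule L K where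
  carrier := {f | ∀ w : Place L K, Ge w (B * mu t w) f}
  add_mem' := fun hf hg w => (hf w).add (hg w)
  zero_mem' := fun w => Ge.zero
  smul_mem' := by
    intro c f hf w
    have h1 := (Ge.const (P := w) c).mul (hf w)
    rw [zero_add] at h1
    rw [Algebra.smul_def]
    exact h1

theorem mem_WB {t : K} {B : ℤ} {f : K} : f ∈ WB L t B ↔ ∀ w : Place L K, Ge w (B * mu t w) f :=
  Iff.rfl

theorem WB_neg {t₀ t : K} {S : Finset K} (ht₀ : Transcendental L t₀)
    (ha : ∀ b : K, IsAlgebraic (IntermediateField.adjoin L {t₀}) b)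
    (hS : IntermediateField.adjoin L (S : Set K) = ⊤) (ht : Transcendental L t) {f : K}
    (hf : f ∈ WB L t (-1)) : f = 0 := by
  by_contra hf0
  have h1 : ∀ w : Place L K, 0 ≤ w.ord f := by
    intro w
    have h2 := (hf w).resolve_left hf0
    have h3 := mu_nonpos t w
    omega
  have h2 : IsAlgebraic L f := by
    by_contra hcon
    obtain ⟨w, hw⟩ := Pool.Agent.Y954.SP.exists_pole ht₀ ha hS hcon
    have := h1 w
    omega
  obtain ⟨w, hw⟩ := Pool.Agent.Y954.SP.exists_pole ht₀ ha hS ht
  have h3 := (hf w).resolve_left hf0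
  have h4 : mu t w = w.ord t := min_eq_right hw.le
  exact w.transcendental_of_ord_ne (f := f) (by omega) h2

open IntermediateField.algebraAdjoinAdjoin in
/-- a relation with polynomials as coefficients -/
theorem exists_poly {t : K} (ht : Transcendental L t)
    [FiniteDimensional (IntermediateField.adjoin L {t}) K] {d : ℕ}
    (hd : finrank (IntermediateField.adjoin L {t}) K < d) (φ : Fin d → K) :
    ∃ p : Fin d → L[X], (∃ i, (p i).coeff 0 ≠ 0) ∧ ∑ i, aeval t (p i) * φ i = 0 := by
  classical
  -- some relation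
  have h1 : ¬ LinearIndependent (Algebra.adjoin L {t}) φ := by
    intro h
    have h2 : LinearIndependent (IntermediateField.adjoin L {t}) φ :=
      (LinearIndependent.iff_fractionRing (Algebra.adjoin L {t})
        (IntermediateField.adjoin L {t})).1 h
    have h3 := h2.fintype_card_le_finrank
    rw [Fintype.card_fin] at h3
    omega
  rw [Fintype.not_linearIndependent_iff] at h1
  obtain ⟨c, hc, i₀, hi₀⟩ := h1
  have h2 : ∀ i, ∃ p : L[X], aeval t p = (c i : K) := by
    intro i
    have h3 : (c i : K) ∈ (aeval t : L[X] →ₐ[L] K).range := by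
      rw [← Algebra.adjoin_singleton_eq_range_aeval]
      exact (c i).2
    exact h3
  choose p hp using h2
  have hex : ∃ N : ℕ, ∃ p : Fin d → L[X], (∃ i, p i ≠ 0) ∧ ∑ i, aeval t (p i) * φ i = 0 ∧
      ∑ i, (p i).natDegree ≤ N := by
    refine ⟨_, p, ⟨i₀, ?_⟩, ?_, le_rfl⟩
    · intro h3
      have h4 := hp i₀
      rw [h3, map_zero] at h4
      exact hi₀ (Subtype.ext h4.symm)
    · rw [← hc]
      refine Finset.sum_congr rfl fun i _ => ?_
      rw [hp, Algebra.smul_def]
      rfl
  obtain ⟨p, hp0, hps, hN⟩ := Nat.find_spec hex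
  refine ⟨p, ?_, hps⟩
  by_contra hcon
  push Not at hcon
  have ht0 : t ≠ 0 := by
    rintro rfl
    exact ht isAlgebraic_zero
  have h3 : ∀ i, p i = X * (p i).divX := by
    intro i
    conv_lhs => rw [← Polynomial.divX_mul_X_add (p i)]
    rw [hcon, C_0, add_zero, mul_comm]
  have h4 : ∑ i, aeval t ((p i).divX) * φ i = 0 := by
    have h5 : t * ∑ i, aeval t ((p i).divX) * φ i = 0 := by
      rw [← hps, Finset.mul_sum]
      refine Finset.sum_congr rfl fun i _ => ?_
      conv_rhs => rw [h3 i]
      rw [map_mul, aeval_X]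
      ring
    exact (mul_eq_zero.1 h5).resolve_left ht0
  obtain ⟨i₁, hi₁⟩ := hp0
  have hlt : ∑ i, ((p i).divX).natDegree < ∑ i, (p i).natDegree := by
    refine Finset.sum_lt_sum (fun i _ => ?_) ⟨i₁, Finset.mem_univ _, ?_⟩
    · rw [Polynomial.natDegree_divX_eq_natDegree_tsub_one]
      exact Nat.sub_le _ _
    · rw [Polynomial.natDegree_divX_eq_natDegree_tsub_one]
      have h6 : 0 < (p i₁).natDegree := by
        rw [Nat.pos_iff_ne_zero]
        intro h7
        rw [Polynomial.natDegree_eq_zero] at h7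
        obtain ⟨a, ha⟩ := h7
        have h8 := hcon i₁
        rw [← ha, coeff_C_zero] at h8
        rw [← ha, h8, C_0] at hi₁
        exact hi₁ rfl
      omega
  have h7 : 0 < Nat.find hex := by omega
  have h9 : p i₁ ≠ 0 → (p i₁).divX ≠ 0 := by
    intro h7 h8
    apply h7
    rw [h3 i₁, h8, mul_zero]
  exact Nat.find_min hex (m := Nat.find hex - 1) (by omega) ⟨fun i => (p i).divX, ⟨i₁, h9 hi₁⟩, h4,
    Nat.le_sub_one_of_lt (lt_of_lt_of_le hlt hN)⟩

/-- the step of the induction -/
theorem WB_step {t : K} {B : ℤ} (hB : 0 ≤ B) {d : ℕ} {φ : Fin d → K} (ht0 : t ≠ 0)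
    (hφ : ∀ i, φ i ∈ WB L t B) {p : Fin d → L[X]} (hp : ∑ i, aeval t (p i) * φ i = 0) :
    ∃ ψ ∈ WB L t (B - 1), ∑ i, algebraMap L K ((p i).coeff 0) * φ i = t * ψ := by
  obtain ⟨ψ, hψ⟩ : ∃ ψ, ψ = -∑ i, aeval t ((p i).divX) * φ i := ⟨_, rfl⟩
  have h1 : ∑ i, algebraMap L K ((p i).coeff 0) * φ i = t * ψ := by
    have h2 : ∀ i, aeval t (p i) * φ i =
        t * (aeval t ((p i).divX) * φ i) + algebraMap L K ((p i).coeff 0) * φ i := by
      intro i
      conv_lhs => rw [← Polynomial.divX_mul_X_add (p i)]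
      rw [map_add, map_mul, aeval_X, aeval_C]
      ring
    simp only [h2] at hp
    rw [Finset.sum_add_distrib, ← Finset.mul_sum] at hp
    rw [hψ]
    linear_combination hp
  refine ⟨ψ, fun w => ?_, h1⟩
  rcases le_or_gt 0 (w.ord t) with hw | hw
  · have h2 : mu t w = 0 := min_eq_left hw
    rw [h2, mul_zero, hψ]
    refine Ge.neg (Ge.sum _ _ fun i _ => ?_)
    have h3 : Ge w 0 (aeval t ((p i).divX)) := by
      rw [aeval_eq_sum_range]
      refine Ge.sum _ _ fun j _ => ?_
      rw [Algebra.smul_def]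
      have h4 := (Ge.const (P := w) (((p i).divX).coeff j)).mul
        (Ge.pow (P := w) (N := 0) (f := t) (Or.inr hw) j)
      rw [mul_zero, add_zero] at h4
      exact h4
    have h4 := hφ i w
    rw [h2, mul_zero] at h4
    have h5 := h3.mul h4
    rwa [add_zero] at h5
  · have h2 : mu t w = w.ord t := min_eq_right hw.le
    rw [h2]
    have h3 : Ge w (B * w.ord t) (t * ψ) := by
      rw [← h1]
      refine Ge.sum _ _ fun i _ => ?_
      have h4 := (Ge.const (P := w) ((p i).coeff 0)).mul (hφ i w)
      rw [zero_add, h2] at h4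
      exact h4
    have h4 := Ge.of_mul ht0 h3
    refine h4.mono ?_
    rw [sub_mul, one_mul]

/-- **the dimension of the space of functions with bounded poles** -/
theorem rank_WB {t₀ t : K} {S : Finset K} (ht₀ : Transcendental L t₀)
    (ha : ∀ b : K, IsAlgebraic (IntermediateField.adjoin L {t₀}) b)
    (hS : IntermediateField.adjoin L (S : Set K) = ⊤) (ht : Transcendental L t) (B : ℕ) :
    Module.rank L (WB L t ((B : ℤ) - 1)) ≤
      ((finrank (IntermediateField.adjoin L {t}) K * B : ℕ) : Cardinal) := by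
  classical
  have halg : Algebra.IsAlgebraic (IntermediateField.adjoin L {t}) K :=
    Pool.Agent.Y954.SP.swapF ht₀ ha ht
  have hfd : FiniteDimensional (IntermediateField.adjoin L {t}) K :=
    Pool.Agent.Y954.SP.finF hS _
  have ht0 : t ≠ 0 := by
    rintro rfl
    exact ht isAlgebraic_zero
  induction B with
  | zero =>
    rw [Nat.cast_zero, zero_sub, mul_zero, Nat.cast_zero]
    have h1 : WB L t (-1) = ⊥ := by
      rw [eq_bot_iff]
      intro f hf
      exact (Submodule.mem_bot L).2 (WB_neg ht₀ ha hS ht hf)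
    rw [h1, rank_bot]
  | succ B ih =>
    have e1 : ((B + 1 : ℕ) : ℤ) - 1 = (B : ℤ) := by push_cast; ring
    rw [e1]
    -- the subspace `t W_(B - 1)`
    let μ : K →ₗ[L] K := LinearMap.mulLeft L t
    let N : Submodule L (WB L t (B : ℤ)) := ((WB L t ((B : ℤ) - 1)).map μ).comap
      (WB L t (B : ℤ)).subtype
    have hN : Module.rank L N ≤ Module.rank L (WB L t ((B : ℤ) - 1)) := by
      have h1 : Module.rank L N ≤ Module.rank L ((WB L t ((B : ℤ) - 1)).map μ) := by
        refine LinearMap.rank_le_of_injective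
          ((Submodule.subtype (WB L t (B : ℤ))).restrict (p := N)
            (q := (WB L t ((B : ℤ) - 1)).map μ) fun x hx => hx) ?_
        intro x y hxy
        apply Subtype.ext
        apply Subtype.ext
        exact congrArg (fun z : ((WB L t ((B : ℤ) - 1)).map μ) => (z : K)) hxy
      exact h1.trans (rank_map_le _ _)
    have hQ : Module.rank L (WB L t (B : ℤ) ⧸ N) ≤
        ((finrank (IntermediateField.adjoin L {t}) K : ℕ) : Cardinal) := by
      refine rank_le fun s hs => ?_
      by_contra hcon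
      push Not at hcon
      -- representatives
      let e := s.equivFin
      choose r hr using fun i : Fin s.card => Submodule.Quotient.mk_surjective N
        ((e.symm i : (WB L t (B : ℤ) ⧸ N)))
      obtain ⟨p, ⟨i, hi⟩, hp⟩ := exists_poly ht hcon (fun i => ((r i : WB L t (B : ℤ)) : K))
      obtain ⟨ψ, hψ, hψs⟩ := WB_step (B := (B : ℤ)) (Int.natCast_nonneg _) ht0
        (fun i => (r i).2) hp
      have hs' : LinearIndependent L (fun i : Fin s.card => ((e.symm i : (WB L t (B : ℤ) ⧸ N)))) :=
        hs.comp e.symm e.symm.injective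
      rw [Fintype.linearIndependent_iff] at hs'
      refine hi (hs' (fun i => (p i).coeff 0) ?_ i)
      have h2 : ∑ i, (p i).coeff 0 • ((e.symm i : (WB L t (B : ℤ) ⧸ N))) =
          Submodule.Quotient.mk (∑ i, (p i).coeff 0 • r i) := by
        have h3 := map_sum (Submodule.mkQ N) (fun i => (p i).coeff 0 • r i) Finset.univ
        rw [Submodule.mkQ_apply] at h3
        rw [h3]
        refine Finset.sum_congr rfl fun i _ => ?_
        rw [← hr i]
        rfl
      rw [h2, Submodule.Quotient.mk_eq_zero]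
      refine ⟨ψ, hψ, ?_⟩
      change t * ψ = ((∑ i, (p i).coeff 0 • r i : WB L t (B : ℤ)) : K)
      rw [← hψs]
      have h4 := map_sum (Submodule.subtype (WB L t (B : ℤ))) (fun i => (p i).coeff 0 • r i)
        Finset.univ
      rw [Submodule.subtype_apply] at h4
      rw [h4]
      refine Finset.sum_congr rfl fun i _ => ?_
      rw [map_smul, Algebra.smul_def]
      rfl
    rw [← Submodule.rank_quotient_add_rank N]
    calc Module.rank L (WB L t (B : ℤ) ⧸ N) + Module.rank L N ≤
        ((finrank (IntermediateField.adjoin L {t}) K : ℕ) : Cardinal) +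
          ((finrank (IntermediateField.adjoin L {t}) K * B : ℕ) : Cardinal) :=
          add_le_add hQ (hN.trans ih)
      _ = ((finrank (IntermediateField.adjoin L {t}) K * (B + 1) : ℕ) : Cardinal) := by
          push_cast
          ring

/-- the functions of the space are combinations of few functions -/
theorem exists_span {t₀ t : K} {S : Finset K} (ht₀ : Transcendental L t₀)
    (ha : ∀ b : K, IsAlgebraic (IntermediateField.adjoin L {t₀}) b)
    (hS : IntermediateField.adjoin L (S : Set K) = ⊤) (ht : Transcendental L t) :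
    ∃ d : ℕ, 1 ≤ d ∧ ∀ B J : ℕ, d * (B + 1) ≤ J → ∃ b : Fin J → K, ∀ f ∈ WB L t (B : ℤ),
      ∃ g : Fin J → L, f = ∑ a, algebraMap L K (g a) * b a := by
  classical
  have halg : Algebra.IsAlgebraic (IntermediateField.adjoin L {t}) K :=
    Pool.Agent.Y954.SP.swapF ht₀ ha ht
  have hfd : FiniteDimensional (IntermediateField.adjoin L {t}) K :=
    Pool.Agent.Y954.SP.finF hS _
  refine ⟨finrank (IntermediateField.adjoin L {t}) K, finrank_pos, fun B J hJ => ?_⟩
  have h1 := rank_WB ht₀ ha hS ht (B + 1)
  have e1 : ((B + 1 : ℕ) : ℤ) - 1 = (B : ℤ) := by push_cast; ring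
  rw [e1] at h1
  have hfin : FiniteDimensional L (WB L t (B : ℤ)) :=
    Module.rank_lt_aleph0_iff.1 (h1.trans_lt Cardinal.natCast_lt_aleph0)
  have h2 : finrank L (WB L t (B : ℤ)) ≤ J := by
    refine le_trans ?_ hJ
    rw [← Nat.cast_le (α := Cardinal), finrank_eq_rank]
    exact h1
  let β := Module.finBasis L (WB L t (B : ℤ))
  obtain ⟨F, hF⟩ : ∃ F, F = finrank L (WB L t (B : ℤ)) := ⟨_, rfl⟩
  obtain ⟨m, rfl⟩ := Nat.exists_eq_add_of_le h2
  refine ⟨Fin.addCases (fun i => (β i : K)) (fun _ => 0), fun f hf => ?_⟩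
  refine ⟨Fin.addCases (fun i => β.repr ⟨f, hf⟩ i) (fun _ => 0), ?_⟩
  have h3 : f = ∑ i, algebraMap L K (β.repr ⟨f, hf⟩ i) * (β i : K) := by
    have h4 := congrArg (Submodule.subtype (WB L t (B : ℤ))) (β.sum_repr ⟨f, hf⟩)
    rw [map_sum] at h4
    conv_lhs => rw [show f = Submodule.subtype (WB L t (B : ℤ)) ⟨f, hf⟩ from rfl]
    rw [← h4]
    refine Finset.sum_congr rfl fun i _ => ?_
    rw [map_smul, Algebra.smul_def]
    rfl
  rw [Fin.sum_univ_add]
  simp only [Fin.addCases_left, Fin.addCases_right, map_zero, mul_zero, Finset.sum_const_zero,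
    add_zero]
  exact h3

end

end Pool.Agent.H59G
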