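import Pool.Agent.Y742.CN.Stm
import Pool.Agent.V1153.UG.WrA

/-!
Zero estimates: linear relations between the derivatives of functions at the two ends of a chain of
leaves. The lists of derivations and one more leaf.
-/

set_option autoImplicit false
set_option linter.unusedSectionVars false

open Pool.Agent.Y742.CN Matrix

namespace Pool.Agent.H59G

section

variable {Ω K : Type} [Field Ω] [Field K] [Algebra Ω K]

/-- the derivations of a list are applied, the first one first -/
def app : List (Derivation Ω K K) → K → K
  | [], f => f
  | E :: u, f => app u (E f)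

theorem app_nil (f : K) : app ([] : List (Derivation Ω K K)) f = f := rfl

theorem app_cons (E : Derivation Ω K K) (u : List (Derivation Ω K K)) (f : K) :
    app (E :: u) f = app u (E f) := rfl

theorem app_add (u : List (Derivation Ω K K)) (f g : K) : app u (f + g) = app u f + app u g := by
  induction u generalizing f g with
  | nil => rfl
  | cons E u ih => rw [app_cons, app_cons, app_cons, map_add, ih]

theorem app_zero (u : List (Derivation Ω K K)) : app u (0 : K) = 0 := by
  induction u with
  | nil => rfl
  | cons E u ih => rw [app_cons, map_zero, ih]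

theorem app_smul (u : List (Derivation Ω K K)) (c : Ω) (f : K) :
    app u (c • f) = c • app u f := by
  induction u generalizing f with
  | nil => rfl
  | cons E u ih => rw [app_cons, app_cons, E.map_smul, ih]

theorem app_sum {ι : Type} (t : Finset ι) (u : List (Derivation Ω K K)) (f : ι → K) :
    app u (∑ i ∈ t, f i) = ∑ i ∈ t, app u (f i) := by
  classical
  induction t using Finset.induction_on with
  | empty => rw [Finset.sum_empty, Finset.sum_empty, app_zero]
  | insert a t ha ih => rw [Finset.sum_insert ha, Finset.sum_insert ha, app_add, ih]

theorem app_append (u v : List (Derivation Ω K K)) (f : K) :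
    app (u ++ v) f = app v (app u f) := by
  induction u generalizing f with
  | nil => rfl
  | cons E u ih => rw [List.cons_append, app_cons, app_cons, ih]

theorem app_replicate (D : Derivation Ω K K) (i : ℕ) (f : K) :
    app (List.replicate i D) f = (⇑D)^[i] f := by
  induction i generalizing f with
  | zero => rfl
  | succ i ih => rw [List.replicate_succ, app_cons, ih, Function.iterate_succ_apply]

/-- the derivations which commute with `D` -/
def comm (D : Derivation Ω K K) : Set (Derivation Ω K K) := {E | ∀ a, D (E a) = E (D a)}

theorem app_comm {D : Derivation Ω K K} {u : List (Derivation Ω K K)} (hu : ∀ E ∈ u, E ∈ comm D)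
    (f : K) : D (app u f) = app u (D f) := by
  induction u generalizing f with
  | nil => rfl
  | cons E u ih =>
    rw [app_cons, app_cons, ih (fun E' h => hu E' (List.mem_cons_of_mem _ h)),
      hu E List.mem_cons_self f]

/-- the elements of `T` span the space of all derivations -/
def Spans (T : Set (Derivation Ω K K)) : Prop := Submodule.span K T = ⊤

variable {M : Type} [Field M] [Algebra Ω M]

/-- The relation with the coefficients `s (c l)` between the values at `e` of the derivatives of order
at most `m` of the functions `f l`, for the derivations in `T`. -/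
def Z (T : Set (Derivation Ω K K)) (s e : K →ₐ[Ω] M) {ι : Type} [Fintype ι] (c : ι → K) (m : ℕ)
    (f : ι → K) : Prop :=
  ∀ u : List (Derivation Ω K K), (∀ E ∈ u, E ∈ T) → u.length ≤ m →
    ∑ l, s (c l) * e (app u (f l)) = 0

variable {T : Set (Derivation Ω K K)} {s e : K →ₐ[Ω] M} {ι : Type} [Fintype ι] {c f : ι → K}
  {m : ℕ}

theorem Z.mono (h : Z T s e c m f) {m' : ℕ} (hm : m' ≤ m) : Z T s e c m' f :=
  fun u hu hl => h u hu (hl.trans hm)

theorem Z.sub (h : Z T s e c m f) {T' : Set (Derivation Ω K K)} (hT : T' ⊆ T) :
    Z T' s e c m f := fun u hu hl => h u (fun E hE => hT (hu E hE)) hl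

theorem Z.der (h : Z T s e c (m + 1) f) {E : Derivation Ω K K} (hE : E ∈ T) :
    Z T s e c m (fun l => E (f l)) := by
  intro u hu hl
  refine h (E :: u) (fun E' hE' => ?_) (by rw [List.length_cons]; omega)
  rcases List.mem_cons.1 hE' with rfl | h'
  · exact hE
  · exact hu E' h'

theorem Z.mul_right (h : Z T s e c m f) (b : K) : Z T s e c m (fun l => f l * b) := by
  induction m generalizing f b with
  | zero =>
    intro u hu hl
    have h0 : u = [] := List.length_eq_zero_iff.1 (by omega)
    subst h0
    have h1 := h [] hu hl
    simp only [app_nil] at h1 ⊢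
    have h2 : ∑ l, s (c l) * e (f l * b) = (∑ l, s (c l) * e (f l)) * e b := by
      rw [Finset.sum_mul]
      refine Finset.sum_congr rfl fun l _ => ?_
      rw [map_mul]
      ring
    rw [h2, h1, zero_mul]
  | succ m ih =>
    intro u hu hl
    rcases u with _ | ⟨E, u⟩
    · have h1 := h [] hu hl
      simp only [app_nil] at h1 ⊢
      have h2 : ∑ l, s (c l) * e (f l * b) = (∑ l, s (c l) * e (f l)) * e b := by
        rw [Finset.sum_mul]
        refine Finset.sum_congr rfl fun l _ => ?_
        rw [map_mul]
        ring
      rw [h2, h1, zero_mul]
    · have hE : E ∈ T := hu E List.mem_cons_self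
      have hu' : ∀ E' ∈ u, E' ∈ T := fun E' h' => hu E' (List.mem_cons_of_mem _ h')
      have hl' : u.length ≤ m := by rw [List.length_cons] at hl; omega
      have h1 := ih (h.der hE) b u hu' hl'
      have h2 := ih (h.mono (Nat.le_succ m)) (E b) u hu' hl'
      have h3 : ∀ l, app (E :: u) (f l * b) = app u (E (f l) * b) + app u (f l * E b) := by
        intro l
        rw [app_cons, ← app_add]
        congr 1
        rw [Derivation.leibniz, smul_eq_mul, smul_eq_mul]
        ring
      simp only [h3, map_add, mul_add, Finset.sum_add_distrib]
      simp only at h1 h2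
      rw [h1, h2, add_zero]

/-- the leading term -/
theorem lead (u : List (Derivation Ω K K)) (hu : ∀ E ∈ u, E ∈ T)
    (h : ∀ v : List (Derivation Ω K K), (∀ E ∈ v, E ∈ T) → v.length < u.length →
      ∑ l, s (c l) * e (app v (f l)) = 0) (b : K) :
    ∑ l, s (c l) * e (app u (f l * b)) = e b * ∑ l, s (c l) * e (app u (f l)) := by
  induction u generalizing f b with
  | nil =>
    simp only [app_nil]
    rw [Finset.mul_sum]
    refine Finset.sum_congr rfl fun l _ => ?_
    rw [map_mul]
    ring
  | cons E u ih =>
    have hE : E ∈ T := hu E List.mem_cons_self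
    have hu' : ∀ E' ∈ u, E' ∈ T := fun E' h' => hu E' (List.mem_cons_of_mem _ h')
    have h1 := ih (f := fun l => E (f l)) hu' (fun v hv hl => h (E :: v) (fun E' hE' => by
      rcases List.mem_cons.1 hE' with rfl | h'
      · exact hE
      · exact hv E' h') (by rw [List.length_cons, List.length_cons]; omega)) b
    have h2 : Z T s e c u.length f := fun v hv hl => h v hv (by rw [List.length_cons]; omega)
    have h3 := h2.mul_right (E b) u hu' le_rfl
    have h4 : ∀ l, app (E :: u) (f l * b) = app u (E (f l) * b) + app u (f l * E b) := by
      intro l
      rw [app_cons, ← app_add]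
      congr 1
      rw [Derivation.leibniz, smul_eq_mul, smul_eq_mul]
      ring
    simp only [h4, map_add, mul_add, Finset.sum_add_distrib]
    simp only at h1 h3
    rw [h1, h3, add_zero]
    rfl

theorem Z.sum {κ : Type} (t : Finset κ) (F : κ → ι → K) (h : ∀ k ∈ t, Z T s e c m (F k)) :
    Z T s e c m (fun l => ∑ k ∈ t, F k l) := by
  intro u hu hl
  simp only [app_sum, map_sum, Finset.mul_sum]
  rw [Finset.sum_comm]
  exact Finset.sum_eq_zero fun k hk => h k hk u hu hl

/-- if the relation holds for a spanning set it holds for all derivations -/
theorem Z.all (hT : Spans T) (h : Z T s e c m f) : Z Set.univ s e c m f := by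
  induction m generalizing f with
  | zero =>
    intro u _ hl
    have h0 : u = [] := List.length_eq_zero_iff.1 (by omega)
    subst h0
    exact h [] (fun E hE => absurd hE (by simp)) le_rfl
  | succ m ih =>
    intro u _ hl
    rcases u with _ | ⟨E, u⟩
    · exact h [] (fun E hE => absurd hE (by simp)) (Nat.zero_le _)
    · have hl' : u.length ≤ m := by rw [List.length_cons] at hl; omega
      have key : ∀ E : Derivation Ω K K, E ∈ Submodule.span K T →
          Z Set.univ s e c m (fun l => E (f l)) := by
        intro E hE
        induction hE using Submodule.span_induction with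
        | mem x hx => exact ih (h.der hx)
        | zero =>
          intro v _ _
          refine Finset.sum_eq_zero fun l _ => ?_
          show s (c l) * e (app v (0 : K)) = 0
          rw [app_zero, map_zero, mul_zero]
        | add x y _ _ hx hy =>
          intro v hv hlv
          have h1 := hx v hv hlv
          have h2 := hy v hv hlv
          have h3 : ∀ l, app v ((x + y) (f l)) = app v (x (f l)) + app v (y (f l)) := by
            intro l
            rw [← app_add]
            rfl
          simp only [h3, map_add, mul_add, Finset.sum_add_distrib]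
          rw [h1, h2, add_zero]
        | smul a x _ hx =>
          have h1 := hx.mul_right a
          intro v hv hlv
          have h2 := h1 v hv hlv
          have h3 : ∀ l, (a • x) (f l) = x (f l) * a := by
            intro l
            rw [Derivation.smul_apply, smul_eq_mul, mul_comm]
          simp only [h3]
          exact h2
      exact key E (by rw [hT]; trivial) u (fun _ _ => Set.mem_univ _) hl'

/-- The functions `f l` are combinations of `J` functions with coefficients which are constants of
`D`. -/
def Rk (D : Derivation Ω K K) (J : ℕ) (f : ι → K) : Prop :=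
  ∃ b : Fin J → K, ∀ l, ∃ g : Fin J → K, (∀ a, D (g a) = 0) ∧ f l = ∑ a, g a * b a

variable {M' : Type} [Field M'] [Algebra Ω M']

/-- **one more leaf** -/
theorem step_aux {D : Derivation Ω K K} (hD : Spans (comm D)) {J : ℕ} {b : Fin J → K}
    (hb : (Matrix.of fun (i a : Fin J) => (⇑D)^[(i : ℕ)] (b a)).det ≠ 0)
    {g : ι → Fin J → K} (hg : ∀ l a, D (g l a) = 0) (hf : ∀ l, f l = ∑ a, g l a * b a)
    (j : M →ₐ[Ω] M') (e' : K →ₐ[Ω] M') (he : ∀ a, D a = 0 → e' a = j (e a)) {N : ℕ}
    (h : Z Set.univ s e c (N + (J - 1)) f) : Z Set.univ (j.comp s) e' c N f := by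
  classical
  -- the derivatives of the coefficients
  have h1 : ∀ (k : ℕ) (u : List (Derivation Ω K K)), u.length = k → k ≤ N →
      (∀ E ∈ u, E ∈ comm D) → ∀ a, ∑ l, s (c l) * e (app u (g l a)) = 0 := by
    intro k
    induction k using Nat.strong_induction_on with
    | _ k ih =>
      intro u hk hkN hu
      have h2 : ∀ i : Fin J, ∑ a, e ((⇑D)^[(i : ℕ)] (b a)) *
          ∑ l, s (c l) * e (app u (g l a)) = 0 := by
        intro i
        have h3 := h (List.replicate i D ++ u) (fun _ _ => Set.mem_univ _) (by
          rw [List.length_append, List.length_replicate]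
          have := i.2
          omega)
        have h4 : ∀ l, app (List.replicate i D ++ u) (f l) =
            ∑ a, app u (g l a * (⇑D)^[(i : ℕ)] (b a)) := by
          intro l
          rw [app_append, app_replicate, hf, ← app_sum]
          congr 1
          generalize (i : ℕ) = k
          induction k with
          | zero => rfl
          | succ k ih =>
            rw [Function.iterate_succ_apply', ih, map_sum]
            refine Finset.sum_congr rfl fun a _ => ?_
            rw [Derivation.leibniz, hg, smul_zero, add_zero, smul_eq_mul,
              Function.iterate_succ_apply']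
        simp only [h4, map_sum, Finset.mul_sum] at h3
        rw [Finset.sum_comm] at h3
        rw [← h3]
        refine Finset.sum_congr rfl fun a _ => ?_
        exact (lead u hu (fun v hv hlv => ih v.length (by omega) v rfl (by omega) hv a) _).symm
      have h5 : (Matrix.of fun (i a : Fin J) => (⇑D)^[(i : ℕ)] (b a)).map e *ᵥ
          (fun a => ∑ l, s (c l) * e (app u (g l a))) = 0 := by
        funext i
        exact h2 i
      have h6 : ((Matrix.of fun (i a : Fin J) => (⇑D)^[(i : ℕ)] (b a)).map e).det ≠ 0 := by
        have h7 := (RingHom.map_det (e : K →+* M)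
          (Matrix.of fun (i a : Fin J) => (⇑D)^[(i : ℕ)] (b a)))
        have h8 : (e : K →+* M) ((Matrix.of fun (i a : Fin J) => (⇑D)^[(i : ℕ)] (b a)).det) ≠ 0 :=
          (map_ne_zero _).2 hb
        rw [h7] at h8
        exact h8
      exact fun a => congrFun (Matrix.eq_zero_of_mulVec_eq_zero h6 h5) a
  -- the next point
  have h2 : ∀ a, Z (comm D) (j.comp s) e' c N (fun l => g l a) := by
    intro a u hu hl
    have h3 := h1 u.length u rfl hl hu a
    have h4 : ∀ l, e' (app u (g l a)) = j (e (app u (g l a))) := by
      intro l
      refine he _ ?_
      rw [app_comm hu, hg, app_zero]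
    simp only [h4, AlgHom.comp_apply, ← map_mul, ← map_sum]
    rw [h3, map_zero]
  refine Z.all hD ?_
  have h3 := Z.sum Finset.univ (fun a l => g l a * b a) fun a _ => (h2 a).mul_right (b a)
  intro u hu hl
  have h4 := h3 u hu hl
  simp only [hf]
  exact h4

end

end Pool.Agent.H59G
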