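import Pool.Agent.H59G.ZA
import Pool.Agent.Y742.CN.All
import Pool.Agent.W602.GT.Der

/-!
Zero estimates: independent functions, commuting derivations, and the chain of leaves of maximal
transcendence degree.
-/

set_option autoImplicit false
set_option linter.unusedSectionVars false

open Pool.Agent.Y742.CN Pool.Agent.W602.GT Matrix

namespace Pool.Agent.H59G

section

variable {Ω K : Type} [Field Ω] [Field K] [Algebra Ω K]

/-- evaluation of derivations -/
def ev (x : K) : Derivation Ω K K →ₗ[K] K where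
  toFun E := E x
  map_add' _ _ := rfl
  map_smul' _ _ := rfl

open IntermediateField.algebraAdjoinAdjoin in
theorem tb_of_curve (L : IntermediateField Ω K) (t : K) (ht : Transcendental L t)
    (halg : ∀ b : K, IsAlgebraic (IntermediateField.adjoin L {t}) b) :
    IsTranscendenceBasis L (fun _ : Unit => t) := by
  rw [isTranscendenceBasis_iff_algebraicIndependent_isAlgebraic]
  refine ⟨algebraicIndependent_unique_type_iff.2 ht, ?_⟩
  rw [Set.range_const, ← IntermediateField.isAlgebraic_adjoin_iff_top]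
  exact ⟨halg⟩

theorem rk_min {D : Derivation Ω K K} {ι : Type} {J : ℕ} {f : ι → K} (h : Rk D J f) :
    ∃ J' ≤ J, ∃ b : Fin J' → K,
      (Matrix.of fun (i a : Fin J') => (⇑D)^[(i : ℕ)] (b a)).det ≠ 0 ∧
      ∀ l, ∃ g : Fin J' → K, (∀ a, D (g a) = 0) ∧ f l = ∑ a, g a * b a := by
  classical
  have hex : ∃ J, Rk D J f := ⟨J, h⟩
  obtain ⟨b, hb⟩ := Nat.find_spec hex
  refine ⟨Nat.find hex, Nat.find_min' hex h, b, ?_, hb⟩
  intro hdet
  have hdet' : (Pool.Agent.V1153.UG.wmat (overConsts D) b).det = 0 := by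
    have e1 : (Matrix.of fun (i a : Fin (Nat.find hex)) => (⇑D)^[(i : ℕ)] (b a)) =
        (Pool.Agent.V1153.UG.wmat (overConsts D) b)ᵀ := by
      ext i a
      rfl
    rw [e1, Matrix.det_transpose] at hdet
    exact hdet
  obtain ⟨γ, hγ, hs⟩ := Pool.Agent.V1153.UG.dep_of_wr_zero (overConsts D)
    (fun x hx => ⟨⟨x, mem_consts.2 hx⟩, rfl⟩) b hdet'
  obtain ⟨a₀, ha₀⟩ : ∃ a, γ a ≠ 0 := by
    by_contra hcon
    push Not at hcon
    exact hγ (funext hcon)
  -- the basis function `b a₀` is not needed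
  obtain ⟨m, hm⟩ : ∃ m, Nat.find hex = m + 1 :=
    ⟨Nat.find hex - 1, by have := a₀.2; omega⟩
  have hlt : m < Nat.find hex := by omega
  refine Nat.find_min hex hlt ?_
  generalize hJ : Nat.find hex = J₁ at *
  subst hm
  have hγ0 : ((γ a₀ : K)) ≠ 0 := fun h0 => ha₀ (by exact_mod_cast h0)
  have hba : b a₀ = ∑ a ∈ Finset.univ.erase a₀, (-(γ a : K) / γ a₀) * b a := by
    have h1 : (γ a₀ : K) * b a₀ + ∑ a ∈ Finset.univ.erase a₀, (γ a : K) * b a = 0 := by
      rw [Finset.add_sum_erase _ (fun a => (γ a : K) * b a) (Finset.mem_univ a₀)]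
      exact hs
    have h2 : b a₀ = -(∑ a ∈ Finset.univ.erase a₀, (γ a : K) * b a) / γ a₀ := by
      rw [eq_div_iff hγ0]
      linear_combination h1
    rw [h2, ← Finset.sum_neg_distrib, Finset.sum_div]
    refine Finset.sum_congr rfl fun a _ => ?_
    ring
  refine ⟨fun a => b (a₀.succAbove a), fun l => ?_⟩
  obtain ⟨g, hg, hf⟩ := hb l
  have hcon : ∀ a, D (γ a : K) = 0 := fun a => mem_consts.1 (γ a).2
  refine ⟨fun a => g (a₀.succAbove a) + g a₀ * (-(γ (a₀.succAbove a) : K) / γ a₀), ?_, ?_⟩
  · intro a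
    have h1 : ∀ x y : K, x ∈ consts D → y ∈ consts D → x * y ∈ consts D :=
      fun x y hx hy => mul_mem hx hy
    have h2 : g (a₀.succAbove a) + g a₀ * (-(γ (a₀.succAbove a) : K) / γ a₀) ∈ consts D :=
      add_mem (mem_consts.2 (hg _)) (mul_mem (mem_consts.2 (hg _))
        (div_mem (neg_mem (γ _).2) (γ _).2))
    exact mem_consts.1 h2
  · rw [hf, Fin.sum_univ_succAbove _ a₀]
    have h3 : ∑ a ∈ Finset.univ.erase a₀, (-(γ a : K) / γ a₀) * b a =
        ∑ a, (-(γ (a₀.succAbove a) : K) / γ a₀) * b (a₀.succAbove a) := by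
      have h4 := Fin.sum_univ_succAbove (fun a => (-(γ a : K) / γ a₀) * b a) a₀
      rw [← Finset.add_sum_erase _ _ (Finset.mem_univ a₀)] at h4
      exact add_left_cancel h4
    conv_lhs => rw [hba, h3]
    rw [Finset.mul_sum, ← Finset.sum_add_distrib]
    refine Finset.sum_congr rfl fun a _ => ?_
    ring

section

variable [CharZero Ω] {ι : Type} [Fintype ι] [DecidableEq ι] {x : ι → K}
  {d : ι → Derivation Ω K K}

theorem coord_comm (hx : IsTranscendenceBasis Ω x)
    (hd : ∀ i j, d i (x j) = if i = j then 1 else 0) (i j : ι) (a : K) :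
    d i (d j a) = d j (d i a) := by
  have h1 : ⁅d i, d j⁆ = 0 := by
    refine der_ext x hx fun k => ?_
    rw [Derivation.commutator_apply, hd, hd, Derivation.zero_apply]
    split_ifs <;> simp
  have h2 := congrArg (fun E : Derivation Ω K K => E a) h1
  simp only [Derivation.commutator_apply, Derivation.zero_apply] at h2
  exact sub_eq_zero.1 h2

theorem coord_span (hx : IsTranscendenceBasis Ω x)
    (hd : ∀ i j, d i (x j) = if i = j then 1 else 0) (E : Derivation Ω K K) :
    E = ∑ j, E (x j) • d j := by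
  refine der_ext x hx fun k => ?_
  have h1 : (∑ j, E (x j) • d j) (x k) = ∑ j, E (x j) * d j (x k) := by
    have h2 := map_sum (ev (Ω := Ω) (x k)) (fun j => E (x j) • d j) Finset.univ
    exact h2
  rw [h1]
  simp only [hd, mul_ite, mul_one, mul_zero]
  rw [Finset.sum_ite_eq']
  simp

theorem exists_coord (hx : IsTranscendenceBasis Ω x) :
    ∃ d : ι → Derivation Ω K K, ∀ i j, d i (x j) = if i = j then 1 else 0 := by
  have h1 : ∀ i, ∃ D : Derivation Ω K K, ∀ j, D (x j) = if i = j then 1 else 0 :=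
    fun i => exists_der x hx fun j => if i = j then 1 else 0
  choose d hd using h1
  exact ⟨d, hd⟩

/-- a derivation with one-dimensional leaves can be divided by a function such that the derivations
which commute with it span -/
theorem normal₀ {n : ℕ} {z : Unit ⊕ Fin n → K} (hT : IsTranscendenceBasis Ω z)
    {D : Derivation Ω K K} (hD : D ≠ 0) (hDz : ∀ j, D (z (Sum.inr j)) = 0) :
    ∃ D' : Derivation Ω K K, (∀ a, D' a = 0 ↔ D a = 0) ∧ Spans (comm D') := by
  classical
  obtain ⟨d, hd⟩ := exists_coord hT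
  have h1 := coord_span hT hd D
  have h2 : ∀ a, D a = D (z (Sum.inl ())) * d (Sum.inl ()) a := by
    intro a
    conv_lhs => rw [h1]
    rw [Fintype.sum_sum_type]
    simp only [Finset.univ_unique, Finset.sum_singleton, hDz, zero_smul, Finset.sum_const_zero,
      add_zero]
    rfl
  have hDt : D (z (Sum.inl ())) ≠ 0 := by
    intro h0
    apply hD
    ext a
    rw [h2, h0, zero_mul]
    rfl
  refine ⟨d (Sum.inl ()), fun a => ?_, ?_⟩
  · rw [h2 a]
    constructor
    · intro h
      rw [h, mul_zero]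
    · intro h
      exact (mul_eq_zero.1 h).resolve_left hDt
  · refine top_le_iff.1 fun E _ => ?_
    rw [coord_span hT hd E]
    refine Submodule.sum_mem _ fun j _ => Submodule.smul_mem _ _ (Submodule.subset_span ?_)
    intro a
    exact coord_comm hT hd _ _ a

end

end

section

variable {Ω K : Type} [Field Ω] [CharZero Ω] [Field K] [Algebra Ω K]

/-- The derivation has one-dimensional leaves (with commuting derivations). -/
def Lf (D : Derivation Ω K K) : Prop :=
  ∃ D' : Derivation Ω K K, (∀ a, D' a = 0 ↔ D a = 0) ∧ Spans (comm D')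

/-- the estimate for the end points of a chain with `k` leaves -/
def Est {I : Type} (D : I → Derivation Ω K K) {M : Type} [Field M] [Algebra Ω M] (k : ℕ)
    (s e : K →ₐ[Ω] M) : Prop :=
  ∀ (q J N : ℕ) (c f : Fin q → K), (∀ i, Rk (D i) J f) →
    Z Set.univ (AlgHom.id Ω K) (AlgHom.id Ω K) c (N + k * (J - 1)) f → Z Set.univ s e c N f

theorem Est.step {I : Type} {D : I → Derivation Ω K K} (hD : ∀ i, Lf (D i)) {M : Type} [Field M]
    [Algebra Ω M] {k : ℕ} {s e : K →ₐ[Ω] M} (h : Est D k s e) (i : I) {M' : Type} [Field M']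
    [Algebra Ω M'] (j : M →ₐ[Ω] M') (e' : K →ₐ[Ω] M') (he : ∀ a, D i a = 0 → e' a = j (e a)) :
    Est D (k + 1) (j.comp s) e' := by
  intro q J N c f hR hZ
  obtain ⟨D', hD', hsp⟩ := hD i
  have hR' : Rk D' J f := by
    obtain ⟨b, hb⟩ := hR i
    refine ⟨b, fun l => ?_⟩
    obtain ⟨g, hg, hf⟩ := hb l
    exact ⟨g, fun a => (hD' _).2 (hg a), hf⟩
  obtain ⟨J', hJ', b, hb, hf⟩ := rk_min hR'
  choose g hg hf using hf
  refine step_aux hsp hb hg hf j e' (fun a ha => he a ((hD' a).1 ha)) ?_
  have h1 := h q J (N + (J - 1)) c f hR (hZ.mono (by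
    rw [Nat.add_mul]
    omega))
  exact h1.mono (by omega)

open Pool.Agent.Y618.CN in
/-- **the chain of maximal transcendence degree** -/
theorem exists_max {I : Type} {n : ℕ} {x : Fin n → K} (hx : IsTranscendenceBasis Ω x)
    (D : I → Derivation Ω K K) (hD : ∀ i, Lf (D i)) :
    ∃ (k : ℕ) (M : Type) (_ : Field M) (_ : Algebra Ω M) (s e : K →ₐ[Ω] M), Est D k s e ∧
      ∀ i, Stable s e (D i) := by
  classical
  let Q : ℕ → Prop := fun d => ∃ (k : ℕ) (M : Type) (_ : Field M) (_ : Algebra Ω M)
    (s e : K →ₐ[Ω] M), Est D k s e ∧ ∃ y : Fin d → K,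
      Function.Injective (MvPolynomial.eval₂Hom (s : K →+* M) (fun i => e (y i)))
  have hn : ∀ d, Q d → d ≤ n := by
    rintro d ⟨k, M, _, _, s, e, -, y, hy⟩
    have hind : AlgebraicIndependent Ω y := by
      rw [algebraicIndependent_iff]
      intro p hp
      have h1 : MvPolynomial.eval₂Hom (s : K →+* M) (fun i => e (y i))
          (MvPolynomial.map (algebraMap Ω K) p) = 0 := by
        rw [MvPolynomial.coe_eval₂Hom, MvPolynomial.eval₂_map]
        have h2 : (s : K →+* M).comp (algebraMap Ω K) = algebraMap Ω M := by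
          ext c; exact s.commutes c
        rw [h2]
        have h3 : e (MvPolynomial.aeval y p) = 0 := by rw [hp, map_zero]
        rw [← MvPolynomial.aeval_def, ← h3]
        exact (MvPolynomial.comp_aeval_apply y e p).symm
      have h4 := hy (h1.trans (map_zero _).symm)
      exact MvPolynomial.map_injective _ (algebraMap Ω K).injective (h4.trans (map_zero _).symm)
    have h5 := hind.cardinalMk_le_trdeg
    have h6 := hx.cardinalMk_eq_trdeg
    rw [← h6] at h5
    simpa using h5
  have h0 : Q 0 := by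
    refine ⟨0, K, inferInstance, inferInstance, AlgHom.id Ω K, AlgHom.id Ω K, ?_, Fin.elim0, ?_⟩
    · intro q J N c f _ hZ
      exact hZ.mono (by omega)
    · intro p p' hp
      obtain ⟨c, rfl⟩ := MvPolynomial.C_surjective (R := K) (Fin 0) p
      obtain ⟨c', rfl⟩ := MvPolynomial.C_surjective (R := K) (Fin 0) p'
      simp only [MvPolynomial.coe_eval₂Hom, MvPolynomial.eval₂_C] at hp
      have h2 : c = c' := hp
      rw [h2]
  have hd0 : Q (Nat.findGreatest Q n) := Nat.findGreatest_spec (Nat.zero_le n) h0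
  have hd1 : ¬ Q (Nat.findGreatest Q n + 1) := fun hP =>
    Nat.findGreatest_is_greatest (Nat.lt_succ_self _) (hn _ hP) hP
  obtain ⟨d, hd⟩ : ∃ d, d = Nat.findGreatest Q n := ⟨_, rfl⟩
  rw [← hd] at hd0 hd1
  obtain ⟨k, M, _, _, s, e, hE, y, hy⟩ := hd0
  refine ⟨k, M, inferInstance, inferInstance, s, e, hE, fun i => ?_⟩
  obtain ⟨M', _, _, j, e', he', hs⟩ :=
    Pool.Agent.Y467.CN.sNext Pool.Agent.Y274.CN.Exp.sExp Ω K M (D i) s e
  have hE' : Est D (k + 1) (j.comp s) e' := hE.step hD i j e' he'
  intro q a b hab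
  have h1 := core Ω K M M' s e (j.comp s) e' (fun q a b h => (hs q a b h).1) d y hy
    (fun y' hy' => hd1 ⟨k + 1, M', inferInstance, inferInstance, j.comp s, e', hE', y', hy'⟩)
    q a b hab
  exact (hs q a (fun l => D i (b l)) (hs q a b h1).2).1

/-- a stable end is generic -/
theorem stable_inj {I M : Type} [Field M] [Algebra Ω M] {s e : K →ₐ[Ω] M}
    {D : I → Derivation Ω K K} (hD : ∀ a : K, (∀ i, D i a = 0) → a ∈ Set.range (algebraMap Ω K))
    (hs : ∀ i, Stable s e (D i)) {q : ℕ} {c f : Fin q → K} (hf : LinearIndependent Ω f)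
    (h : ∑ l, s (c l) * e (f l) = 0) : c = 0 := by
  classical
  -- a basis of the space spanned by the coefficients
  let B := Module.Free.chooseBasis Ω (Submodule.span Ω (Set.range c))
  have hcm : ∀ l, c l ∈ Submodule.span Ω (Set.range c) := fun l => Submodule.subset_span ⟨l, rfl⟩
  let κ := Module.Free.ChooseBasisIndex Ω (Submodule.span Ω (Set.range c))
  have : FiniteDimensional Ω (Submodule.span Ω (Set.range c)) :=
    FiniteDimensional.span_of_finite Ω (Set.finite_range c)
  let γ : Fin q → κ → Ω := fun l k => B.repr ⟨c l, hcm l⟩ k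
  have hγ : ∀ l, c l = ∑ k, γ l k • (B k : K) := by
    intro l
    have h1 := B.sum_repr ⟨c l, hcm l⟩
    have h2 := congrArg (Submodule.subtype (Submodule.span Ω (Set.range c))) h1
    rw [map_sum] at h2
    exact h2.symm
  have hB : LinearIndependent Ω (fun k => (B k : K)) :=
    B.linearIndependent.map' (Submodule.subtype _) (Submodule.ker_subtype _)
  -- descent
  let U : Submodule K (κ →₀ K) :=
    { carrier := {u | ∑ k, s (B k : K) * e (u k) = 0}
      add_mem' := by
        intro u v hu hv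
        simp only [Set.mem_ofPred_eq, Finsupp.add_apply, map_add, mul_add,
          Finset.sum_add_distrib] at hu hv ⊢
        rw [hu, hv, add_zero]
      zero_mem' := by
        simp
      smul_mem' := by
        intro a u hu
        simp only [Set.mem_ofPred_eq, Finsupp.smul_apply, smul_eq_mul, map_mul] at hu ⊢
        have h1 : ∀ k, s (B k : K) * (e a * e (u k)) = e a * (s (B k : K) * e (u k)) := by
          intro k
          ring
        simp only [h1]
        rw [← Finset.mul_sum, hu, mul_zero] }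
  have hmem : ∀ u : κ →₀ K, u ∈ U ↔ ∑ k, s (B k : K) * e (u k) = 0 := fun u => Iff.rfl
  have hU : ∀ u ∈ U, u = 0 := by
    intro u hu
    have h1 := Pool.Agent.Y467.CN.sDescent Ω K κ I D U (by
      intro i u hu
      rw [hmem] at hu ⊢
      have e1 := Fintype.equivFin κ
      have h2 := hs i (Fintype.card κ) (fun l => (B (e1.symm l) : K)) (fun l => u (e1.symm l)) (by
        rw [← hu]
        exact Equiv.sum_comp e1.symm (fun k => s (B k : K) * e (u k)))
      rw [← h2]
      exact (Equiv.sum_comp e1.symm (fun k => s (B k : K) * e (D i (u k)))).symm) u hu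
    have h0 : ∀ v ∈ {v : κ →₀ K | v ∈ U ∧ ∀ i j, D i (v j) = 0}, v = 0 := by
      rintro v ⟨hv, hDv⟩
      have h2 : ∀ k, ∃ r : Ω, algebraMap Ω K r = v k := fun k => hD _ fun i => hDv i k
      choose r hr using h2
      have h3 : s (∑ k, r k • (B k : K)) = 0 := by
        rw [map_sum, ← (hmem v).1 hv]
        refine Finset.sum_congr rfl fun k _ => ?_
        rw [← hr k, e.commutes, map_smul, Algebra.smul_def, mul_comm]
      have h4 : ∑ k, r k • (B k : K) = 0 := (map_eq_zero s).1 h3
      have h5 := Fintype.linearIndependent_iff.1 hB r h4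
      ext k
      rw [← hr k, h5 k, map_zero]
      rfl
    have h6 : Submodule.span K {v : κ →₀ K | v ∈ U ∧ ∀ i j, D i (v j) = 0} ≤ ⊥ :=
      Submodule.span_le.2 fun v hv => h0 v hv
    exact (Submodule.mem_bot K).1 (h6 h1)
  -- the relation
  have h1 : ∑ k, s (B k : K) * e (∑ l, γ l k • f l) = 0 := by
    rw [← h]
    have h2 : ∀ l, s (c l) * e (f l) = ∑ k, s (B k : K) * e (γ l k • f l) := by
      intro l
      rw [hγ l, map_sum, Finset.sum_mul]
      refine Finset.sum_congr rfl fun k _ => ?_
      rw [map_smul, map_smul, smul_mul_assoc, mul_smul_comm]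
    simp only [h2, map_sum, Finset.mul_sum]
    exact Finset.sum_comm
  have h2 := hU (Finsupp.equivFunOnFinite.symm fun k => ∑ l, γ l k • f l) h1
  have h3 : ∀ k, ∑ l, γ l k • f l = 0 := fun k => congrArg (fun u : κ →₀ K => u k) h2
  funext l
  rw [hγ l]
  refine Finset.sum_eq_zero fun k _ => ?_
  rw [Fintype.linearIndependent_iff.1 hf (fun l => γ l k) (h3 k) l, zero_smul]

end

end Pool.Agent.H59G
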